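import Pool.Agent.P8H60.BW.Run
import Pool.Agent.R846.VS.J

/-! # The theorem for the ordinates up to `N`, given places -/

set_option autoImplicit false

open Filter Topology MeasureTheory Set

namespace Pool.Agent.P8H60.BW

open SG (ord NZ)
open Pool.Agent.R846.UL (cn cn_eq)
open Pool.Agent.R846.VS (palm_unif)
open Pool.Agent.P8H60.LM (S_TW)
open Pool.Agent.P8H60.BC

/-- the number of the given places where the ordinate is near -/
noncomputable def hitW {K : ℕ} (δ : ℝ) (L n : ℕ) (k : Fin K → ℕ) (v : Fin K → ℝ) : ℕ :=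
  ({i | |W (ord (n + k i)) - v i| ≤ δ * Real.sqrt (2 * Real.log L) / (2 * Real.pi)} :
    Set (Fin K)).ncard

/-- one dyadic block -/
theorem blk_bw (hTW : S_TW) (hGL : S_GL) (hCH : S_CH) {δ ε : ℝ} (hδ : 0 < δ) (hε : 0 < ε) :
    ∃ (c : ℝ) (M : ℕ), 0 < c ∧ ∀ ε₁ : ℝ, 0 < ε₁ → ε₁ ≤ 1 → ∃ e : ℝ, 0 < e ∧ ∀ (K : ℕ) (g : ℝ), 1 ≤ K →
    g ^ M ≤ Real.exp (c * K) → Real.exp (-(c * K)) ≤ e → ∀ κ : ℝ, 0 < κ → ∃ L₀ : ℕ,
    ∀ (L : ℕ) (T : ℝ), L₀ ≤ L →
    1 ≤ T → ((2 * L : ℕ) : ℝ) * Real.log ((2 * L : ℕ) : ℝ) ≤ Real.log T →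
    ∀ k : Fin K → ℕ, (∀ i, k i ≤ L) → (∀ i j, i ≠ j → κ * L ≤ |(k i : ℝ) - k j|) →
    ∀ V : Set (Fin K → ℝ), (∀ v ∈ V, ∀ b : ℝ, (fun i => v i + b) ∈ V) →
    (∀ y : Fin K → ℝ, ((pv V y).ncard : ℝ) ≤ g) → ∀ (E : ℕ → Prop) [DecidablePred E],
    (∀ n, E n → ∃ v ∈ V, (pG δ + ε) * K ≤ (hitW δ L (n + L) k v : ℝ)) →
    (((Finset.Ioc (NZ T) (NZ (2 * T))).filter E).card : ℝ) ≤ ε₁ * (T * Real.log T / (2 * Real.pi)) := by
  obtain ⟨c, M, hc, hrun⟩ := run_bw hTW hGL hCH hδ hε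
  refine ⟨c, M, hc, fun ε₁ hε₁ hε₁1 => ?_⟩
  obtain ⟨S', T1, hT1, hpalm⟩ := palm_unif hε₁ hε₁1
  refine ⟨ε₁ / (8 * (S' + 1)) / 4, by positivity, fun K g hK hg hce κ hκ => ?_⟩
  obtain ⟨L₀, hrun⟩ := hrun K g (ε₁ / (8 * (S' + 1))) hK (by positivity) hg hce κ hκ S'
  refine ⟨L₀ + ⌈T1⌉₊ + S' + 3, fun L T hL hT hlog k hk1 hk2 V hV1 hV2 E _ hE => ?_⟩
  have hL3 : (3 : ℝ) ≤ L := by exact_mod_cast (by omega : 3 ≤ L)
  have h2L : (((2 * L : ℕ) : ℕ) : ℝ) = 2 * L := by push_cast; ring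
  have hl1 : 1 ≤ Real.log ((2 * L : ℕ) : ℝ) := by
    rw [Real.le_log_iff_exp_le (by rw [h2L]; linarith), h2L]
    linarith [Real.exp_one_lt_d9]
  have hLL : (L : ℝ) ≤ Real.log T := by
    rw [h2L] at hlog hl1
    nlinarith
  have hT0 : 0 < T := by linarith
  have hLT : (L : ℝ) ≤ T := by
    have := Real.log_le_sub_one_of_pos hT0
    linarith
  have hTT1 : T1 ≤ T := by
    have h1 : T1 ≤ L := (Nat.le_ceil T1).trans (by exact_mod_cast (by omega : ⌈T1⌉₊ ≤ L))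
    linarith
  have hlogT : 0 < Real.log T := by linarith
  refine hpalm T hTT1 (fun s => {t | ∃ v ∈ V, (pG δ + ε) * K ≤
      (({i | |W (ord (NZ t + 1 + (L - s + k i))) - v i| ≤ δ * Real.sqrt (2 * Real.log L) /
        (2 * Real.pi)} : Set (Fin K)).ncard : ℝ)}) E ?_ ?_
  · intro s hs
    refine le_trans (measure_mono ?_) (hrun L T (by omega) hT hlog k hk1 hk2 V hV1 hV2 s hs)
    rintro t ⟨h8, h9⟩
    exact ⟨h9, h8⟩
  · intro n hn hnT s hs t _ _ hts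
    obtain ⟨v, hv, hcnt⟩ := hE n hn
    refine ⟨v, hv, hcnt.trans ?_⟩
    have hsub : ({i | |W (ord (n + L + k i)) - v i| ≤ δ * Real.sqrt (2 * Real.log L) /
        (2 * Real.pi)} : Set (Fin K)) ⊆
        {i | |W (ord (NZ t + 1 + (L - s + k i))) - v i| ≤ δ * Real.sqrt (2 * Real.log L) /
          (2 * Real.pi)} := by
      intro i hi
      rw [Set.mem_ofPred_eq] at hi ⊢
      have e1 : NZ t + 1 + (L - s + k i) = n + L + k i := by omega
      rw [e1]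
      exact hi
    exact_mod_cast Set.ncard_le_ncard hsub (Set.toFinite _)

/-- **the theorem for given places** -/
theorem ord_bw (hTW : S_TW) (hGL : S_GL) (hCH : S_CH) {δ ε : ℝ} (hδ : 0 < δ) (hε : 0 < ε) :
    ∃ (c : ℝ) (M : ℕ), 0 < c ∧ ∀ η : ℝ, 0 < η → ∃ e : ℝ, 0 < e ∧ ∀ (K : ℕ) (g : ℝ), 1 ≤ K →
    g ^ M ≤ Real.exp (c * K) → Real.exp (-(c * K)) ≤ e → ∀ κ : ℝ, 0 < κ → ∃ L₀ : ℕ,
    ∀ L N : ℕ, L₀ ≤ L → 8 * (L * Real.log L) ≤ Real.log N →
    ∀ k : Fin K → ℕ, (∀ i, k i ≤ L) → (∀ i j, i ≠ j → κ * L ≤ |(k i : ℝ) - k j|) →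
    ∀ V : Set (Fin K → ℝ), (∀ v ∈ V, ∀ b : ℝ, (fun i => v i + b) ∈ V) →
    (∀ y : Fin K → ℝ, ((pv V y).ncard : ℝ) ≤ g) →
    cn N {n | ∃ v ∈ V, (pG δ + ε) * K ≤ (hitW δ L n k v : ℝ)} ≤ η * N := by
  classical
  obtain ⟨c, M, hc, hblk⟩ := blk_bw hTW hGL hCH hδ hε
  refine ⟨c, M, hc, fun η hη => ?_⟩
  obtain ⟨e, he⟩ : ∃ e : ℝ, e = min (η / 4) 1 := ⟨_, rfl⟩
  have he0 : 0 < e := by rw [he]; exact lt_min (by positivity) one_pos
  have he1 : e ≤ 1 := by rw [he]; exact min_le_right _ _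
  have heη : e ≤ η / 4 := by rw [he]; exact min_le_left _ _
  obtain ⟨N₁, hN₁, hasm⟩ := Pool.Agent.R320.CL.asm e he0 he1
  obtain ⟨e', he', hblk⟩ := hblk e he0 he1
  refine ⟨e', he', fun K g hK hg hce κ hκ => ?_⟩
  obtain ⟨L₀, hblk⟩ := hblk K g hK hg hce κ hκ
  refine ⟨L₀ + N₁ + ⌈4 / η⌉₊ + 3, fun L N hL hLN k hk1 hk2 V hV1 hV2 => ?_⟩
  have hL3 : (3 : ℝ) ≤ L := by exact_mod_cast (by omega : 3 ≤ L)
  have hlL : 1 ≤ Real.log L := by
    rw [Real.le_log_iff_exp_le (by linarith)]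
    linarith [Real.exp_one_lt_d9]
  have hLη : 4 / η ≤ L := (Nat.le_ceil _).trans (by exact_mod_cast (by omega : ⌈4 / η⌉₊ ≤ L))
  rw [div_le_iff₀ hη] at hLη
  have hlN : 0 < Real.log N := by nlinarith
  have hN0 : (0 : ℝ) < N := by
    rcases Nat.eq_zero_or_pos N with h | h
    · rw [h] at hlN
      simp at hlN
    · exact_mod_cast h
  have hNL : (L : ℝ) ^ 2 ≤ N := by
    rw [← Real.log_le_log_iff (by positivity) hN0, Real.log_pow]
    push_cast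
    nlinarith
  have hNN : N₁ ≤ N := by
    have h1 : (L : ℝ) ≤ N := by nlinarith
    have h2 : L ≤ N := by exact_mod_cast h1
    omega
  -- the shifted property
  set E : ℕ → Prop := fun n => ∃ v ∈ V, (pG δ + ε) * K ≤ (hitW δ L n k v : ℝ) with hE
  have g1 := hasm N hNN (fun n => E (n + L)) e he0.le (by linarith)
    (fun T hT hlog => by
      rw [mul_comm (T * Real.log T / (2 * Real.pi)) e]
      refine hblk L T (by omega) hT ?_ k hk1 hk2 V hV1 hV2 (fun n => E (n + L)) (fun n hn => hn)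
      have h1 : Real.log ((2 * L : ℕ) : ℝ) ≤ 2 * Real.log L := by
        push_cast
        rw [Real.log_mul (by norm_num) (by linarith)]
        have h2 : Real.log 2 ≤ Real.log L := Real.log_le_log (by norm_num) (by linarith)
        linarith
      have h3 : ((2 * L : ℕ) : ℝ) * Real.log ((2 * L : ℕ) : ℝ) ≤ ((2 * L : ℕ) : ℝ) * (2 * Real.log L) :=
        mul_le_mul_of_nonneg_left h1 (Nat.cast_nonneg _)
      refine h3.trans ?_
      push_cast
      linarith)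
  rw [cn_eq]
  have h1 : (Finset.Icc 1 N).filter E ⊆ Finset.Icc 1 L ∪
      ((Finset.Icc 1 N).filter (fun n => E (n + L))).image (fun n => n + L) := by
    intro n hn
    rw [Finset.mem_filter, Finset.mem_Icc] at hn
    rw [Finset.mem_union, Finset.mem_Icc, Finset.mem_image]
    rcases Nat.lt_or_ge L n with h | h
    · right
      refine ⟨n - L, ?_, by omega⟩
      rw [Finset.mem_filter, Finset.mem_Icc]
      refine ⟨⟨by omega, by omega⟩, ?_⟩
      have : n - L + L = n := by omega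
      rw [this]
      exact hn.2
    · left
      exact ⟨hn.1.1, h⟩
  have h2 := (Finset.card_le_card h1).trans (Finset.card_union_le _ _)
  rw [Nat.card_Icc, Nat.add_sub_cancel] at h2
  have h3 : (((Finset.Icc 1 N).filter (fun n => E (n + L))).image (fun n => n + L)).card ≤
      ((Finset.Icc 1 N).filter (fun n => E (n + L))).card := Finset.card_image_le
  have h4 : ((((Finset.Icc 1 N).filter E).card : ℕ) : ℝ) ≤
      L + ((((Finset.Icc 1 N).filter (fun n => E (n + L))).card : ℕ) : ℝ) := by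
    exact_mod_cast h2.trans (Nat.add_le_add_left h3 _)
  refine h4.trans ?_
  have h5 : (L : ℝ) ≤ η / 4 * N := by
    have h6 : 4 * (L : ℝ) ≤ L * η * L := by nlinarith
    have h7 : η * (L : ℝ) ^ 2 ≤ η * N := mul_le_mul_of_nonneg_left hNL hη.le
    nlinarith
  have h8 : (e + e) * N ≤ (η / 4 + η / 4) * N := mul_le_mul_of_nonneg_right (by linarith) hN0.le
  have h9 : 0 ≤ η * N := by positivity
  linarith

end Pool.Agent.P8H60.BW
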