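import Pool.Agent.P8H60.BW.LBlk
import Pool.Agent.P8H60.BW.Avg

/-! # The arithmetic progression attains the bound -/

set_option autoImplicit false

namespace Pool.Agent.P8H60.BW

open Finset
open SG (ord NZ)
open Pool.Agent.R846.UL (cn cn_eq)
open Pool.Agent.P8H60.LM (S_TW)
open Pool.Agent.P8H60.BC

/-- **arithmetic progressions attain the bound** -/
theorem att_bw (hTW : S_TW) (hFC : S_FC) (hLG : S_LG) {δ ε η : ℝ} (hδ : 0 < δ)
    (hε : 0 < ε) (hη : 0 < η) : ∃ L₀ : ℕ, ∀ L N : ℕ, L₀ ≤ L → 8 * (L * Real.log L) ≤ Real.log N →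
    cn N {n | ∀ c : ℝ, (hwW δ L L n (fun j => c + j) : ℝ) <
      (pG δ - ε) * L} ≤ η * N := by
  classical
  have hp1 : pG δ ≤ 1 := by
    unfold pG
    exact MeasureTheory.measureReal_le_one
  obtain ⟨ε₂, hε₂⟩ : ∃ ε₂ : ℝ, ε₂ = min (ε / 16) (1 / 4) := ⟨_, rfl⟩
  have hε₂0 : 0 < ε₂ := by rw [hε₂]; exact lt_min (by positivity) (by norm_num)
  have hε₂1 : ε₂ ≤ ε / 16 := by rw [hε₂]; exact min_le_left _ _
  have hε₂2 : ε₂ ≤ 1 / 4 := by rw [hε₂]; exact min_le_right _ _
  obtain ⟨K₀, hord⟩ := ord_AW hTW hFC hLG hδ (show (0 : ℝ) < ε / 2 by positivity)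
    (show 0 < η * ε₂ by positivity)
  obtain ⟨K, hK⟩ : ∃ K : ℕ, K = K₀ + 1 := ⟨_, rfl⟩
  have hK1 : 1 ≤ K := by omega
  have hK0 : (0 : ℝ) < K := by exact_mod_cast hK1
  obtain ⟨L₀, hord⟩ := hord K (by omega) hK1 (ε₂ / (4 * K)) (by positivity)
  refine ⟨L₀ + 2 * K + (⌈16 / ε⌉₊ + ⌈2 / ε₂⌉₊ + 1) * K, fun L N hL hLN => ?_⟩
  obtain ⟨s, hs⟩ : ∃ s : ℕ, s = L / K := ⟨_, rfl⟩
  have hsK : s * K ≤ L := by rw [hs]; exact Nat.div_mul_le_self L K
  have hsK2 : L < s * K + K := by
    rw [hs]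
    exact Nat.lt_div_mul_add hK1 (a := L)
  have hs4 : ⌈16 / ε⌉₊ + ⌈2 / ε₂⌉₊ + 1 ≤ s := by
    rw [hs, Nat.le_div_iff_mul_le hK1]
    omega
  have hs1 : 1 ≤ s := by omega
  have hsr : 16 / ε ≤ s := (Nat.le_ceil _).trans (by exact_mod_cast (by omega : ⌈16 / ε⌉₊ ≤ s))
  rw [div_le_iff₀ hε] at hsr
  have hsr2 : 2 / ε₂ ≤ s := (Nat.le_ceil _).trans (by exact_mod_cast (by omega : ⌈2 / ε₂⌉₊ ≤ s))
  rw [div_le_iff₀ hε₂0] at hsr2
  have hs0 : (0 : ℝ) < s := by exact_mod_cast hs1
  have hsL : (L : ℝ) ≤ 2 * (s * K) := by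
    have h1 : L ≤ 2 * (s * K) := by
      have : K ≤ s * K := Nat.le_mul_of_pos_left K (by omega)
      omega
    exact_mod_cast h1
  -- the admissible offsets
  obtain ⟨b₀, hb₀⟩ : ∃ b₀ : ℕ, b₀ = ⌊ε₂ * s⌋₊ := ⟨_, rfl⟩
  have hb₀1 : (b₀ : ℝ) ≤ ε₂ * s := by rw [hb₀]; exact Nat.floor_le (by positivity)
  have hb₀2 : ε₂ * s < b₀ + 1 := by rw [hb₀]; exact Nat.lt_floor_add_one _
  have hb₀3 : ε₂ / 2 * s ≤ b₀ := by linarith
  set kk : ℕ → Fin (K + K) → ℕ := fun b => Fin.addCases (fun i : Fin K => b + i * s) (fun l : Fin K => (l : ℕ) * s)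
    with hkk
  have hkl : ∀ b (i : Fin K), kk b (Fin.castAdd K i) = b + i * s := fun b i => by
    simp only [hkk, Fin.addCases_left]
  have hkr : ∀ b (l : Fin K), kk b (Fin.natAdd K l) = l * s := fun b l => by
    simp only [hkk, Fin.addCases_right]
  have hle : ∀ b < s, ∀ i, kk b i ≤ L := by
    intro b hb i
    have hKs : K * s = s * K := by ring
    refine Fin.addCases (fun i => ?_) (fun l => ?_) i
    · rw [hkl]
      have h2 : ((i : ℕ) + 1) * s ≤ K * s := Nat.mul_le_mul_right s i.2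
      have h3 : ((i : ℕ) + 1) * s = i * s + s := by ring
      omega
    · rw [hkr]
      have h2 : (l : ℕ) * s ≤ K * s := Nat.mul_le_mul_right s l.2.le
      omega
  have hint : ∀ i j : ℕ, i ≠ j → (s : ℝ) ≤ |((i * s : ℕ) : ℝ) - ((j * s : ℕ) : ℝ)| := by
    intro i j hij
    have h2 : ((i * s : ℕ) : ℝ) - ((j * s : ℕ) : ℝ) = ((i : ℝ) - j) * s := by push_cast; ring
    rw [h2, abs_mul, abs_of_pos hs0]
    have h3 : (1 : ℝ) ≤ |(i : ℝ) - j| := by
      have h4 : (i : ℤ) - j ≠ 0 := by omega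
      have h5 := Int.one_le_abs h4
      exact_mod_cast h5
    nlinarith
  have hmix : ∀ b, b₀ ≤ b → b + b₀ ≤ s → ∀ i j : ℕ,
      (b₀ : ℝ) ≤ |((b + i * s : ℕ) : ℝ) - ((j * s : ℕ) : ℝ)| := by
    intro b hb1 hb2 i j
    rcases Nat.lt_or_ge i j with h | h
    · rw [abs_sub_comm]
      refine le_trans ?_ (le_abs_self _)
      have h1 : (i + 1) * s ≤ j * s := Nat.mul_le_mul_right s h
      have h2 : (i + 1) * s = i * s + s := by ring
      have h3 : b₀ + (b + i * s) ≤ j * s := by omega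
      have h4 : (b₀ : ℝ) + ((b + i * s : ℕ) : ℝ) ≤ ((j * s : ℕ) : ℝ) := by exact_mod_cast h3
      linarith
    · refine le_trans ?_ (le_abs_self _)
      have h1 : j * s ≤ i * s := Nat.mul_le_mul_right s h
      have h3 : b₀ + j * s ≤ b + i * s := by omega
      have h4 : (b₀ : ℝ) + ((j * s : ℕ) : ℝ) ≤ ((b + i * s : ℕ) : ℝ) := by exact_mod_cast h3
      linarith
  have hκL : ε₂ / (4 * K) * L ≤ ε₂ / 2 * s := by
    calc ε₂ / (4 * K) * L ≤ ε₂ / (4 * K) * (2 * (s * K)) := mul_le_mul_of_nonneg_left hsL (by positivity)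
      _ = ε₂ / 2 * s := by field_simp; norm_num
  have hsep : ∀ b, b₀ ≤ b → b + b₀ ≤ s → ∀ i j, i ≠ j →
      ε₂ / (4 * K) * L ≤ |(kk b i : ℝ) - kk b j| := by
    intro b hb1 hb2 i j
    have hε₂s : ε₂ / 2 * s ≤ s := by nlinarith
    refine Fin.addCases (fun i => ?_) (fun i => ?_) i
    · refine Fin.addCases (fun j hij => ?_) (fun j _ => ?_) j
      · have h1 : (i : ℕ) ≠ j := fun h => hij (by rw [Fin.ext h])
        rw [hkl, hkl]
        have h2 := hint i j h1
        have h3 : ((b + (i : ℕ) * s : ℕ) : ℝ) - ((b + (j : ℕ) * s : ℕ) : ℝ) =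
            (((i : ℕ) * s : ℕ) : ℝ) - (((j : ℕ) * s : ℕ) : ℝ) := by push_cast; ring
        rw [h3]
        linarith
      · rw [hkl, hkr]
        have := hmix b hb1 hb2 i j
        linarith
    · refine Fin.addCases (fun j _ => ?_) (fun j hij => ?_) j
      · rw [hkl, hkr, abs_sub_comm]
        have := hmix b hb1 hb2 j i
        linarith
      · have h1 : (i : ℕ) ≠ j := fun h => hij (by rw [Fin.ext h])
        rw [hkr, hkr]
        have h2 := hint i j h1
        linarith
  set Bb : ℕ → ℕ → Prop := fun b n => (hitAW δ L n (kk b) : ℝ) < (pG δ - ε / 2) * K with hBb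
  set R : Finset ℕ := Icc b₀ (s - b₀) with hR
  have hb : ∀ b ∈ R.filter (· < s), (((Icc 1 N).filter (Bb b)).card : ℝ) ≤ η * ε₂ * N := by
    intro b hb
    rw [mem_filter, hR, mem_Icc] at hb
    have h2b : 2 * b₀ ≤ s := by
      have : (2 * b₀ : ℝ) ≤ s := by nlinarith
      exact_mod_cast this
    have h1 := hord L N (by omega) hLN (kk b) (hle b hb.2) (hsep b hb.1.1 (by omega))
    rw [cn_eq] at h1
    exact h1
  rw [cn_eq]
  set E : ℕ → Prop := fun n => ∀ c : ℝ, (hwW δ L L n (fun j => c + j) : ℝ) <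
      (pG δ - ε) * L with hE
  -- many offsets are bad
  have hmany : ∀ n ∈ (Icc 1 N).filter E, ε₂ * s ≤ (((R.filter (· < s)).filter (fun b => Bb b n)).card : ℝ) := by
    intro n hn
    have hEn := (mem_filter.1 hn).2
    obtain ⟨c, hc⟩ : ∃ c : ℝ, c = (∑ l : Fin K, uoW n (l * s)) / K := ⟨_, rfl⟩
    have hcen : ∀ b, cenW n (kk b) = c := by
      intro b
      unfold cenW
      simp only [hkr]
      rw [hc]
    have h1 := hEn c
    rw [hwW_eq] at h1
    set f : ℕ → ℝ := fun j => c + j with hf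
    have h2 : ((range (s * K)).filter (fun j => nrW δ L n f j)).card ≤
        ((range (L + 1)).filter (fun j => nrW δ L n f j)).card :=
      card_le_card (filter_subset_filter _ (range_mono (by omega)))
    rw [split s K hs1] at h2
    have h3 : ∀ b ∈ R.filter (· < s), hitAW δ L n (kk b) =
        ((range K).filter (fun i => nrW δ L n f (b + i * s))).card := by
      intro b _
      unfold hitAW
      have e1 : ({i | |uoW n (kk b (Fin.castAdd K i)) - cenW n (kk b)| ≤ δ * Real.sqrt (2 * Real.log L) /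
          (2 * Real.pi)} : Set (Fin K)) =
          ((univ.filter fun i : Fin K => nrW δ L n f (b + i * s) : Finset (Fin K)) : Set (Fin K)) := by
        ext i
        simp only [Set.mem_ofPred_eq, coe_filter, mem_univ, true_and, hkl, hcen]
        unfold nrW uoW
        have e2 : W (ord (n + (b + (i : ℕ) * s))) - ((b + (i : ℕ) * s : ℕ) : ℝ) - c =
            W (ord (n + (b + (i : ℕ) * s))) - f (b + (i : ℕ) * s) := by
          simp only [hf]
          ring
        rw [e2]
      rw [e1, Set.ncard_coe_finset]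
      refine card_bij (fun i _ => (i : ℕ)) (fun i hi => ?_) (fun i _ i' _ h => Fin.ext h)
        (fun i hi => ?_)
      · rw [mem_filter] at hi
        rw [mem_filter, mem_range]
        exact ⟨i.2, hi.2⟩
      · rw [mem_filter, mem_range] at hi
        exact ⟨⟨i, hi.1⟩, by rw [mem_filter]; exact ⟨mem_univ _, hi.2⟩, rfl⟩
    set X := (((R.filter (· < s)).filter (fun b => Bb b n)).card : ℝ) with hX
    set Y := (((R.filter (· < s)).filter (fun b => ¬ Bb b n)).card : ℝ) with hY
    -- the good offsets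
    have h4 : Y * ((pG δ - ε / 2) * K) ≤
        ((∑ b ∈ range s, ((range K).filter (fun i => nrW δ L n f (b + i * s))).card : ℕ) : ℝ) := by
      push_cast
      calc Y * ((pG δ - ε / 2) * K) = ∑ b ∈ (R.filter (· < s)).filter (fun b => ¬ Bb b n),
            (pG δ - ε / 2) * (K : ℝ) := by rw [sum_const, nsmul_eq_mul]
        _ ≤ ∑ b ∈ (R.filter (· < s)).filter (fun b => ¬ Bb b n),
            (((range K).filter (fun i => nrW δ L n f (b + i * s))).card : ℝ) := by
            refine sum_le_sum fun b hb => ?_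
            rw [mem_filter] at hb
            have h5 := hb.2
            simp only [hBb, not_lt] at h5
            rwa [h3 b hb.1] at h5
        _ ≤ _ := by
            refine sum_le_sum_of_subset_of_nonneg (fun b hb => ?_) fun _ _ _ => Nat.cast_nonneg _
            rw [mem_filter, mem_filter] at hb
            exact mem_range.2 hb.1.2
    have h5 : (s : ℝ) - 2 * b₀ ≤ X + Y := by
      have h6 : ((R.filter (· < s)).filter (fun b => Bb b n)).card +
          ((R.filter (· < s)).filter (fun b => ¬ Bb b n)).card = (R.filter (· < s)).card :=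
        card_filter_add_card_filter_not _
      have h7 : s ≤ (R.filter (· < s)).card + 2 * b₀ := by
        have h8 : Ico b₀ (s - b₀) ⊆ R.filter (· < s) := by
          intro b hb
          rw [mem_Ico] at hb
          rw [mem_filter, hR, mem_Icc]
          omega
        have h9 := card_le_card h8
        rw [Nat.card_Ico] at h9
        omega
      have h8 : (s : ℝ) ≤ ((R.filter (· < s)).card : ℝ) + 2 * b₀ := by exact_mod_cast h7
      have h9 : X + Y = ((R.filter (· < s)).card : ℝ) := by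
        rw [hX, hY]
        exact_mod_cast h6
      linarith
    by_contra hcon
    push Not at hcon
    have h2r : ((∑ b ∈ range s, ((range K).filter (fun i => nrW δ L n f (b + i * s))).card : ℕ) : ℝ) ≤
        (((range (L + 1)).filter (fun j => nrW δ L n f j)).card : ℝ) := by exact_mod_cast h2
    have hX0 : 0 ≤ X := by rw [hX]; exact Nat.cast_nonneg _
    have hY0 : 0 ≤ Y := by rw [hY]; exact Nat.cast_nonneg _
    have hcount0 : (0 : ℝ) ≤ (((range (L + 1)).filter (fun j => nrW δ L n f j)).card : ℝ) :=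
      Nat.cast_nonneg _
    rcases le_or_gt (pG δ - ε / 2) 0 with hq | hq
    · have h6 : (pG δ - ε) * L ≤ 0 := mul_nonpos_of_nonpos_of_nonneg (by linarith) (Nat.cast_nonneg _)
      linarith
    · have hYs : (1 - 3 * ε₂) * s ≤ Y := by linarith
      have h6 : (1 - 3 * ε₂) * s * ((pG δ - ε / 2) * K) ≤ Y * ((pG δ - ε / 2) * K) :=
        mul_le_mul_of_nonneg_right hYs (by positivity)
      have hLs : (L : ℝ) ≤ s * K + K := by exact_mod_cast hsK2.le
      have hq1 : pG δ - ε / 2 ≤ 1 := by linarith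
      -- `(p - ε) L ≤ (p - ε / 2) s K + K - (ε / 2) L`
      have h7 : (pG δ - ε / 2) * L ≤ (pG δ - ε / 2) * (s * K) + K := by
        have h8 : (pG δ - ε / 2) * L ≤ (pG δ - ε / 2) * (s * K + K) := mul_le_mul_of_nonneg_left hLs hq.le
        have h9 : (pG δ - ε / 2) * (K : ℝ) ≤ 1 * K := mul_le_mul_of_nonneg_right hq1 hK0.le
        linarith
      have h8 : 3 * ε₂ * s * ((pG δ - ε / 2) * K) ≤ 3 * ε₂ * (s * K) := by
        have h9 : (pG δ - ε / 2) * (K : ℝ) ≤ 1 * K := mul_le_mul_of_nonneg_right hq1 hK0.le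
        calc 3 * ε₂ * s * ((pG δ - ε / 2) * K) ≤ 3 * ε₂ * s * (1 * K) :=
              mul_le_mul_of_nonneg_left h9 (by positivity)
          _ = _ := by ring
      have h9 : 3 * ε₂ * (s * K) ≤ 3 * (ε / 16) * (s * K) :=
        mul_le_mul_of_nonneg_right (by linarith) (by positivity)
      have hsKL : (s : ℝ) * K ≤ L := by exact_mod_cast hsK
      have h10 : ε * (s * K) ≤ ε * L := mul_le_mul_of_nonneg_left hsKL hε.le
      have h11 : 16 * (K : ℝ) ≤ s * ε * K := mul_le_mul_of_nonneg_right hsr hK0.le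
      nlinarith
  -- double counting
  have hdc : ∑ n ∈ (Icc 1 N).filter E, (((R.filter (· < s)).filter (fun b => Bb b n)).card : ℝ) ≤
      ∑ b ∈ R.filter (· < s), (((Icc 1 N).filter (Bb b)).card : ℝ) := by
    have h1 : ∀ n, (((R.filter (· < s)).filter (fun b => Bb b n)).card : ℝ) =
        ∑ b ∈ R.filter (· < s), if Bb b n then (1 : ℝ) else 0 := by
      intro n
      rw [card_filter]
      push_cast
      rfl
    have h2 : ∀ b, (((Icc 1 N).filter (Bb b)).card : ℝ) = ∑ n ∈ Icc 1 N, if Bb b n then (1 : ℝ) else 0 := by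
      intro b
      rw [card_filter]
      push_cast
      rfl
    simp only [h1, h2]
    rw [sum_comm]
    refine sum_le_sum fun b _ => ?_
    refine sum_le_sum_of_subset_of_nonneg (filter_subset _ _) fun n _ _ => ?_
    split_ifs <;> norm_num
  have h1 : (((Icc 1 N).filter E).card : ℝ) * (ε₂ * s) ≤ s * (η * ε₂ * N) := by
    have hRc : ((R.filter (· < s)).card : ℝ) ≤ s := by
      have h2 : R.filter (· < s) ⊆ range s := fun b hb => mem_range.2 (mem_filter.1 hb).2
      have h3 := card_le_card h2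
      rw [card_range] at h3
      exact_mod_cast h3
    calc (((Icc 1 N).filter E).card : ℝ) * (ε₂ * s) =
          ∑ n ∈ (Icc 1 N).filter E, ε₂ * (s : ℝ) := by rw [sum_const, nsmul_eq_mul]
      _ ≤ _ := sum_le_sum hmany
      _ ≤ _ := hdc
      _ ≤ ∑ b ∈ R.filter (· < s), η * ε₂ * (N : ℝ) := sum_le_sum hb
      _ = (R.filter (· < s)).card * (η * ε₂ * N) := by rw [sum_const, nsmul_eq_mul]
      _ ≤ s * (η * ε₂ * N) := mul_le_mul_of_nonneg_right hRc (by positivity)
  have h2 : (((Icc 1 N).filter E).card : ℝ) * (ε₂ * s) ≤ (η * N) * (ε₂ * s) := by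
    calc _ ≤ _ := h1
      _ = _ := by ring
  exact le_of_mul_le_mul_right h2 (by positivity)

end Pool.Agent.P8H60.BW
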