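import Pool.Agent.P8H60.BW.Rec
import Pool.Agent.P8H60.BW.LAvg
import Pool.Agent.P8H60.NR.Gap2

/-! # Sums of normalised gaps, and the normalised gaps themselves -/

set_option autoImplicit false

namespace Pool.Agent.P8H60.BW

open Finset
open SG (ord NZ)
open LG (dlt)
open Pool.Agent.R846.UL (cn cn_eq cn_mono)
open Pool.Agent.P8H60.LM (S_TW)
open Pool.Agent.P8H60.BC

/-- the sum of `j` consecutive normalised gaps -/
noncomputable def Sg (n j : ℕ) : ℝ := ∑ i ∈ range j, dlt (n + i)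

lemma Sg_eq (n j : ℕ) : Sg n j = W (ord (n + j)) - W (ord n) := by
  unfold Sg
  induction j with
  | zero => simp
  | succ j ih =>
    rw [sum_range_succ, ih]
    unfold LG.dlt W
    have : n + j + 1 = n + (j + 1) := by omega
    rw [this]
    ring

/-- the number of the places where the sum of the gaps is near `f` -/
noncomputable def hS (δ : ℝ) (L l n : ℕ) (f : ℕ → ℝ) : ℕ :=
  ({j | j ≤ l ∧ |Sg n j - f j| ≤ δ * Real.sqrt (2 * Real.log L) / (2 * Real.pi)} : Set ℕ).ncard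

lemma hS_eq (δ : ℝ) (L l n : ℕ) (f : ℕ → ℝ) : hS δ L l n f = hwW δ L l n (fun j => f j + W (ord n)) := by
  unfold hS hwW nrW
  congr 1
  ext j
  simp only [Set.mem_ofPred_eq]
  have e1 : Sg n j - f j = W (ord (n + j)) - (f j + W (ord n)) := by
    rw [Sg_eq]
    ring
  rw [e1]

/-- sums of gaps, families -/
theorem gen_S (hTW : S_TW) (hGL : S_GL) (hCH : S_CH) (G : ℕ → ℝ)
    (hG : ∀ ε : ℝ, 0 < ε → ∃ k₀ : ℕ, ∀ k ≥ k₀, G k ≤ Real.exp (ε * k)) {δ ε η : ℝ} (hδ : 0 < δ)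
    (hε : 0 < ε) (hη : 0 < η) : ∃ L₀ : ℕ, ∀ L N : ℕ, L₀ ≤ L → 8 * (L * Real.log L) ≤ Real.log N →
    ∀ F : Set (ℕ → ℝ), (∀ f ∈ F, ∀ b : ℝ, (fun j => f j + b) ∈ F) →
    (∀ f ∈ F, (fun j => f (j + 1)) ∈ F) →
    (∀ (s k : ℕ) (y : Fin k → ℝ), 1 ≤ s → ((pat F s k y).ncard : ℝ) ≤ G k) →
    cn N {n | ∃ L' : ℕ, L ≤ L' ∧ L' ≤ N ∧ ∃ f ∈ F, (pG δ + ε) * L' < (hS δ L L' n f : ℝ)} ≤ η * N := by
  obtain ⟨L₀, h⟩ := gen_bw hTW hGL hCH G hG hδ hε hη
  refine ⟨L₀, fun L N hL hLN F hF1 hF2 hF3 => ?_⟩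
  refine le_trans (cn_mono fun n _ _ hn => ?_) (h L N hL hLN F hF1 hF2 hF3)
  obtain ⟨L', h1, h2, f, hf, h3⟩ := hn
  rw [hS_eq] at h3
  exact ⟨L', h1, h2, _, hF1 f hf _, h3⟩

/-- sums of gaps, recurrences -/
theorem rec_S (hTW : S_TW) (hGL : S_GL) (hCH : S_CH) (hRC : S_RC) (d : ℕ) {δ ε η : ℝ} (hδ : 0 < δ)
    (hε : 0 < ε) (hη : 0 < η) : ∃ L₀ : ℕ, ∀ L N : ℕ, L₀ ≤ L → 8 * (L * Real.log L) ≤ Real.log N →
    cn N {n | ∃ L' : ℕ, L ≤ L' ∧ L' ≤ N ∧ ∃ f ∈ Fd d, (pG δ + ε) * L' < (hS δ L L' n f : ℝ)} ≤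
      η * N := by
  obtain ⟨L₀, h⟩ := rec_bw hTW hGL hCH hRC (d + 1) hδ hε hη
  refine ⟨L₀, fun L N hL hLN => ?_⟩
  refine le_trans (cn_mono fun n _ _ hn => ?_) (h L N hL hLN)
  obtain ⟨L', h1, h2, f, hf, h3⟩ := hn
  rw [hS_eq] at h3
  exact ⟨L', h1, h2, _, Fd_const hf _, h3⟩

/-- sums of gaps, the bound is attained -/
theorem att_S (hTW : S_TW) (hFC : S_FC) (hLG : S_LG) {δ ε η : ℝ} (hδ : 0 < δ)
    (hε : 0 < ε) (hη : 0 < η) : ∃ L₀ : ℕ, ∀ L N : ℕ, L₀ ≤ L → 8 * (L * Real.log L) ≤ Real.log N →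
    cn N {n | ∀ c : ℝ, (hS δ L L n (fun j => c + j) : ℝ) < (pG δ - ε) * L} ≤ η * N := by
  obtain ⟨L₀, h⟩ := att_bw hTW hFC hLG hδ hε hη
  refine ⟨L₀, fun L N hL hLN => ?_⟩
  refine le_trans (cn_mono fun n _ _ hn => ?_) (h L N hL hLN)
  intro c
  have h1 := hn (c - W (ord n))
  rw [hS_eq] at h1
  have e1 : (fun j : ℕ => c - W (ord n) + (j : ℝ) + W (ord n)) = fun j : ℕ => c + (j : ℝ) := by
    funext j
    ring
  rw [e1] at h1
  exact h1

lemma pG_lt_one : pG (1 / 4) < 1 := by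
  rw [Pool.Agent.P8H7.BC.pG_eq _ (by norm_num)]
  have h1 := Pool.Agent.P8H7.BC.G_lip 0 (1 / 4) (by norm_num)
  have h2 : Pool.Agent.P8H7.BC.G 0 0 = 0 := by
    unfold Pool.Agent.P8H7.BC.G
    simp
  rw [h2, zero_add] at h1
  linarith

/-- **the gaps themselves** -/
theorem gap_bw (hTW : S_TW) (hGL : S_GL) (hCH : S_CH) (G : ℕ → ℝ)
    (hG : ∀ ε : ℝ, 0 < ε → ∃ k₀ : ℕ, ∀ k ≥ k₀, G k ≤ Real.exp (ε * k)) {η : ℝ} (hη : 0 < η) :
    ∃ c : ℝ, 0 < c ∧ ∃ L₀ N₀ : ℕ, ∀ N : ℕ, N₀ ≤ N →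
    ∀ F : Set (ℕ → ℝ), (∀ f ∈ F, ∀ b : ℝ, (fun j => f j + b) ∈ F) →
    (∀ f ∈ F, (fun j => f (j + 1)) ∈ F) →
    (∀ (s k : ℕ) (y : Fin k → ℝ), 1 ≤ s → ((pat F s k y).ncard : ℝ) ≤ G k) →
    cn N {n | ∃ L' : ℕ, L₀ ≤ L' ∧ L' ≤ N ∧ ∃ f ∈ F,
      (({j : ℕ | j ≤ L' ∧ c < |dlt (n + j) - (f (j + 1) - f j)|} : Set ℕ).ncard : ℝ) < c * L'} ≤
      η * N := by
  classical
  have hp := pG_lt_one
  have hpi := Real.pi_pos
  obtain ⟨L₁₀, hfix⟩ := fix_bw hTW hGL hCH G hG (δ := 1 / 4) (ε := (1 - pG (1 / 4)) / 2) (η := η / 4)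
    (by norm_num) (by linarith) (by positivity)
  obtain ⟨L₁, hL₁⟩ : ∃ L₁ : ℕ, L₁ = L₁₀ + 2 := ⟨_, rfl⟩
  have hL₁r : (2 : ℝ) ≤ L₁ := by exact_mod_cast (by omega : 2 ≤ L₁)
  have hL₁0 : (0 : ℝ) < L₁ := by linarith
  have hlog : 0 < Real.log L₁ := Real.log_pos (by linarith)
  obtain ⟨c₁, hc₁⟩ : ∃ c₁ : ℝ, c₁ = 1 / 4 * Real.sqrt (2 * Real.log L₁) / (2 * Real.pi) / L₁ := ⟨_, rfl⟩
  have hc₁0 : 0 < c₁ := by
    rw [hc₁]
    have : 0 < Real.sqrt (2 * Real.log L₁) := Real.sqrt_pos.2 (by positivity)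
    positivity
  obtain ⟨c, hc⟩ : ∃ c : ℝ, c = min c₁ (1 / (4 * L₁)) := ⟨_, rfl⟩
  have hc0 : 0 < c := by rw [hc]; exact lt_min hc₁0 (by positivity)
  have hcc : c ≤ c₁ := by rw [hc]; exact min_le_left _ _
  have hc4 : c * (4 * L₁) ≤ 1 := by
    have : c ≤ 1 / (4 * L₁) := by rw [hc]; exact min_le_right _ _
    rwa [le_div_iff₀ (by positivity)] at this
  obtain ⟨N₀, hN₀⟩ := exists_nat_ge (Real.exp (8 * (L₁ * Real.log L₁)))
  refine ⟨c, hc0, 4 * L₁ + 2, N₀, fun N hN F hF1 hF2 hF3 => ?_⟩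
  have hN0 : (0 : ℝ) < N := lt_of_lt_of_le (Real.exp_pos _) (hN₀.trans (by exact_mod_cast hN))
  have hlogN : 8 * (L₁ * Real.log L₁) ≤ Real.log ((2 * N : ℕ) : ℝ) := by
    have h1 : 8 * (L₁ * Real.log L₁) ≤ Real.log N := by
      rw [Real.le_log_iff_exp_le hN0]
      exact hN₀.trans (by exact_mod_cast hN)
    refine h1.trans (Real.log_le_log hN0 ?_)
    push_cast
    linarith
  have hsh := iter_shift hF2
  have hg := hfix L₁ (2 * N) (by omega) hlogN F hF1 (fun b s k y hs => by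
    refine le_trans ?_ (hF3 s k y hs)
    have hsub : pb F b s k y ⊆ pat F s k y := by
      rintro A ⟨f, hf, rfl⟩
      exact ⟨_, hsh b f hf, rfl⟩
    exact_mod_cast Set.ncard_le_ncard hsub (Set.toFinite _))
  rw [cn_eq] at hg
  rw [cn_eq]
  set B : ℕ → Prop := fun n => ∃ f ∈ F, (pG (1 / 4) + (1 - pG (1 / 4)) / 2) * L₁ ≤ (hwW (1 / 4) L₁ L₁ n f : ℝ) with hB
  -- if all gaps of a short run are near then the run is exceptional
  have hBn : ∀ n, (∃ f ∈ F, ∀ j < L₁, |dlt (n + j) - (f (j + 1) - f j)| ≤ c₁) → B n := by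
    rintro n ⟨f, hf, h⟩
    refine ⟨_, hF1 f hf (W (ord n) - f 0), ?_⟩
    have hall : ∀ j ≤ L₁, |Sg n j - (f j - f 0)| ≤ c₁ * j := by
      intro j
      induction j with
      | zero =>
        intro _
        simp [Sg]
      | succ j ih =>
        intro hj
        have h1 := ih (by omega)
        have h2 := h j (by omega)
        have e1 : Sg n (j + 1) - (f (j + 1) - f 0) =
            (Sg n j - (f j - f 0)) + (dlt (n + j) - (f (j + 1) - f j)) := by
          unfold Sg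
          rw [sum_range_succ]
          ring
        rw [e1]
        refine (abs_add_le _ _).trans ?_
        push_cast
        linarith
    have h1 : hwW (1 / 4) L₁ L₁ n (fun j => f j + (W (ord n) - f 0)) = L₁ + 1 := by
      rw [hwW_eq, filter_true_of_mem, card_range]
      intro j hj
      rw [mem_range] at hj
      unfold nrW
      have h2 := hall j (by omega)
      have e1 : W (ord (n + j)) - (f j + (W (ord n) - f 0)) = Sg n j - (f j - f 0) := by
        rw [Sg_eq]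
        ring
      rw [e1]
      refine h2.trans ?_
      have h3 : (j : ℝ) ≤ L₁ := by exact_mod_cast (by omega : j ≤ L₁)
      calc c₁ * j ≤ c₁ * L₁ := mul_le_mul_of_nonneg_left h3 hc₁0.le
        _ = _ := by rw [hc₁]; field_simp
    rw [h1]
    push_cast
    have h2 : (pG (1 / 4) + (1 - pG (1 / 4)) / 2) * (L₁ : ℝ) ≤ 1 * L₁ :=
      mul_le_mul_of_nonneg_right (by linarith) hL₁0.le
    linarith
  set E : ℕ → Prop := fun n => ∃ L' : ℕ, 4 * L₁ + 2 ≤ L' ∧ L' ≤ N ∧ ∃ f ∈ F,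
      (({j : ℕ | j ≤ L' ∧ c < |dlt (n + j) - (f (j + 1) - f j)|} : Set ℕ).ncard : ℝ) < c * L' with hE
  have hm := maxiC B E N 2 (fun n hn1 hnN hn => by
    obtain ⟨L', hL'1, hL'2, f, hf, hcnt⟩ := hn
    refine ⟨L', hL'2, ?_⟩
    by_contra hcon
    push Not at hcon
    set H := (range (L' + 1)).filter (fun j => c < |dlt (n + j) - (f (j + 1) - f j)|) with hH
    have hHe : ({j : ℕ | j ≤ L' ∧ c < |dlt (n + j) - (f (j + 1) - f j)|} : Set ℕ) = (H : Set ℕ) := by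
      ext j
      simp only [hH, Set.mem_ofPred_eq, coe_filter, mem_range, Nat.lt_succ_iff]
    rw [hHe, Set.ncard_coe_finset] at hcnt
    set S := (range (L' + 1 - L₁)).filter (fun k => ¬ B (n + k)) with hS
    have hex : ∀ k ∈ S, ∃ i < L₁, k + i ∈ H := by
      intro k hk
      rw [hS, mem_filter, mem_range] at hk
      obtain ⟨hk1, hk2⟩ := hk
      by_contra hno
      push Not at hno
      apply hk2
      apply hBn
      refine ⟨fun j => f (k + j), hsh k f hf, fun j hj => ?_⟩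
      have h4 := hno j hj
      rw [hH, mem_filter, mem_range] at h4
      push Not at h4
      have h5 := h4 (by omega)
      have e1 : n + k + j = n + (k + j) := by omega
      have e2 : k + (j + 1) = k + j + 1 := by omega
      show |dlt (n + k + j) - (f (k + (j + 1)) - f (k + j))| ≤ c₁
      rw [e1, e2]
      exact h5.trans hcc
    choose! g hg1 hg2 using hex
    have h1 : S.card ≤ L₁ * H.card := by
      refine card_le_mul_card_image_of_maps_to (f := fun k => k + g k) (fun k hk => hg2 k hk) _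
        fun j hj => ?_
      have h2 : S.filter (fun k => k + g k = j) ⊆ Ioc (j - L₁) j ∪ (if j < L₁ then {0} else ∅) := by
        intro k hk
        rw [mem_filter] at hk
        have h3 := hg1 k hk.1
        rw [mem_union, mem_Ioc]
        by_cases h4 : j < L₁
        · rw [if_pos h4, mem_singleton]
          rcases Nat.eq_zero_or_pos k with h5 | h5
          · exact Or.inr h5
          · left
            omega
        · left
          omega
      refine (card_le_card h2).trans ((card_union_le _ _).trans ?_)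
      rw [Nat.card_Ioc]
      split_ifs with h4
      · rw [card_singleton]
        omega
      · rw [card_empty]
        omega
    have h2 : L' + 1 - L₁ ≤ S.card + ((Icc n (n + L')).filter B).card := by
      have h3 := card_filter_add_card_filter_not (s := range (L' + 1 - L₁)) (fun k => ¬ B (n + k))
      rw [card_range, ← hS] at h3
      have h4 : ((range (L' + 1 - L₁)).filter (fun k => ¬ ¬ B (n + k))).card ≤
          ((Icc n (n + L')).filter B).card := by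
        refine card_le_card_of_injOn (fun k => n + k) (fun k hk => ?_) (fun x _ y _ h => ?_)
        · rw [mem_coe, mem_filter, mem_range] at hk
          rw [mem_coe, mem_filter, mem_Icc]
          refine ⟨⟨?_, ?_⟩, not_not.1 hk.2⟩
          · show n ≤ n + k
            omega
          · show n + k ≤ n + L'
            omega
        · simpa using h
      omega
    have h4 : (L' : ℝ) + 1 - 2 * L₁ ≤ 2 * (L₁ * H.card) := by
      have : L' + 1 ≤ 2 * (L₁ * H.card) + 2 * L₁ := by omega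
      have h5 : ((L' + 1 : ℕ) : ℝ) ≤ ((2 * (L₁ * H.card) + 2 * L₁ : ℕ) : ℝ) := by exact_mod_cast this
      push_cast at h5
      linarith
    have h5 : (L₁ : ℝ) * H.card ≤ L₁ * (c * L') := mul_le_mul_of_nonneg_left hcnt.le hL₁0.le
    have h6 : (L₁ : ℝ) * (c * L') ≤ L' / 4 := by
      have h7 : c * (4 * L₁) * L' ≤ 1 * L' := mul_le_mul_of_nonneg_right hc4 (Nat.cast_nonneg L')
      linarith
    have h7 : (4 * (L₁ : ℝ) + 2) ≤ L' := by exact_mod_cast hL'1
    linarith)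
  have h1 : (((Icc 1 N).filter E).card : ℝ) ≤ 2 * (((Icc 1 (2 * N)).filter B).card : ℝ) := by
    exact_mod_cast hm
  have h2 : (((Icc 1 (2 * N)).filter B).card : ℝ) ≤ η / 4 * ((2 * N : ℕ) : ℝ) := hg
  push_cast at h2
  linarith

end Pool.Agent.P8H60.BW
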