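import Pool.Agent.P8H60.BW.Run

/-! # The lower bound for the run following a height, normalised ordinates -/

set_option autoImplicit false

namespace Pool.Agent.P8H60.BW

open Filter Topology MeasureTheory
open Pool.Agent.R846.VS (Dd)
open Pool.Agent.P8H60.LM (S_TW nearQ near_all2)
open Pool.Agent.P8H60.BC
open SG (NZ ord)

/-- the normalised ordinate -/
noncomputable def uoW (m : ℕ) (k : ℕ) : ℝ := W (ord (m + k)) - k

/-- the centre -/
noncomputable def cenW {K : ℕ} (m : ℕ) (k : Fin (K + K) → ℕ) : ℝ :=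
  (∑ l : Fin K, uoW m (k (Fin.natAdd K l))) / K

/-- the number of the places among the first `K` which are near the arithmetic progression -/
noncomputable def hitAW {K : ℕ} (δ : ℝ) (L m : ℕ) (k : Fin (K + K) → ℕ) : ℕ :=
  ({i | |uoW m (k (Fin.castAdd K i)) - cenW m k| ≤ δ * Real.sqrt (2 * Real.log L) / (2 * Real.pi)} :
    Set (Fin K)).ncard

/-- the deterministic part -/
lemma det_AW {K : ℕ} (hK : 1 ≤ K) {δ δ' ε₀ Q T t r w ℓ : ℝ} {L s : ℕ} (hδδ : δ' < δ) (hδ' : 0 < δ')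
    (hε₀ : ε₀ = (δ - δ') / 80) (hr : r = Real.sqrt (Real.log ((2 * L : ℕ) : ℝ)))
    (hr1 : 1 ≤ r)
    (hw : w = Real.sqrt 2 * (Real.pi / r)) (hℓ : ℓ = Real.log T / (2 * Real.pi))
    (hT : 10 ≤ Real.log T) (hTt : t ∈ Set.Icc T (2 * T))
    (hc1 : w ≤ (δ - δ') / 8)
    (hc2 : r * (1 + 2 / Real.log T) * ((δ + δ') / 2) ≤ δ * Real.sqrt (Real.log L))
    (hc3 : 2 * L + 1 + Q * r + 2 * (ε₀ * r) ≤ ℓ)
    (k : Fin (K + K) → ℕ) (hk : ∀ i, k i ≤ L)
    (x : Fin (K + K + 1) → ℕ) (hxs : ∀ i : Fin (K + K), x i.succ = L - s + k i)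
    (P : Finset ℕ) (hP : ∀ i, x i ∈ P)
    (hn : nearQ P T (ε₀ * r) (Q * r) t) (i : Fin K)
    (hi : |zv ((2 * L : ℕ) : ℝ) T (fun i => (x i : ℝ)) t (Fin.castAdd K i) -
      (∑ l : Fin K, zv ((2 * L : ℕ) : ℝ) T (fun i => (x i : ℝ)) t (Fin.natAdd K l)) / K| < δ') :
    |uoW (NZ t + 1 + (L - s)) (k (Fin.castAdd K i)) - cenW (NZ t + 1 + (L - s)) k| ≤
      δ * Real.sqrt (2 * Real.log L) / (2 * Real.pi) := by
  have hpi := Real.pi_pos
  have hpi4 := Real.pi_lt_d2
  have hK0 : (0 : ℝ) < K := by exact_mod_cast hK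
  have hT0 : 0 < T := by
    by_contra h
    push Not at h
    rcases h.lt_or_eq with h2 | h2
    · exact absurd (hTt.1.trans hTt.2) (by linarith)
    · rw [h2, Real.log_zero] at hT
      linarith
  have hT11 : 11 ≤ T := by
    have := Real.log_le_sub_one_of_pos hT0
    linarith
  have hℓ0 : 0 < ℓ := by rw [hℓ]; positivity
  have hε₀0 : 0 < ε₀ := by rw [hε₀]; linarith
  have hs2 : 0 < Real.sqrt 2 := Real.sqrt_pos.2 (by norm_num)
  have hs22 : Real.sqrt 2 * Real.sqrt 2 = 2 := Real.mul_self_sqrt (by norm_num)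
  have hw0 : 0 < w := by rw [hw]; positivity
  set m := NZ t + 1 + (L - s) with hm
  -- the ordinates are near `t`
  have hord : ∀ y ∈ P, y ≤ 2 * L → |ord (NZ t + 1 + y) - t| ≤ 1 := by
    intro y hy hyL
    obtain ⟨h2, h3⟩ := hn y hy
    have h4 : (y : ℝ) ≤ 2 * L := by exact_mod_cast hyL
    have h5 : (0 : ℝ) ≤ y := Nat.cast_nonneg _
    have h6 : |ord (NZ t + 1 + y) - t| * ℓ ≤ ℓ := by
      rw [← abs_of_pos hℓ0, ← abs_mul, abs_of_pos hℓ0]
      rw [← hℓ] at h2
      rw [abs_le] at h2 h3 ⊢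
      constructor <;> linarith
    by_contra hcon
    push Not at hcon
    have : 1 * ℓ < |ord (NZ t + 1 + y) - t| * ℓ := mul_lt_mul_of_pos_right hcon hℓ0
    linarith
  have hordx : ∀ j : Fin (K + K), ord (m + k j) = ord (NZ t + 1 + x j.succ) := by
    intro j
    rw [hxs, hm]
    congr 1
    omega
  -- the fluctuations
  have hZ : ∀ j : Fin (K + K), |Zf ((2 * L : ℕ) : ℝ) T t (x j.succ) -
      w * ((ord (m + k j) - t) * ℓ - (x j.succ + 1))| ≤ w * (2 * (ε₀ * r)) := by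
    intro j
    have h1 := (hn _ (hP j.succ)).1
    rw [← hℓ] at h1
    have e1 : Zf ((2 * L : ℕ) : ℝ) T t (x j.succ) - w * ((ord (m + k j) - t) * ℓ - (x j.succ + 1)) =
        -(w * ((ord (NZ t + 1 + x j.succ) - t) * ℓ - (x j.succ + 1) + Dd T t (x j.succ))) := by
      rw [hordx]
      unfold Zf
      rw [← hr, hw]
      ring
    rw [e1, abs_neg, abs_mul, abs_of_pos hw0]
    exact mul_le_mul_of_nonneg_left h1 hw0.le
  -- the normalised ordinates
  have hU : ∀ j : Fin (K + K), |w * uoW m (k j) - (w * ((ord (m + k j) - t) * ℓ - (x j.succ + 1)) +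
      w * (W t + (L - s : ℕ) + 1))| ≤ w := by
    intro j
    have h1 := W_lin hT11 hTt (hord _ (hP j.succ) (by rw [hxs]; have := hk j; omega)) hℓ
    rw [← hordx] at h1
    have e1 : w * uoW m (k j) - (w * ((ord (m + k j) - t) * ℓ - (x j.succ + 1)) +
        w * (W t + (L - s : ℕ) + 1)) = w * (W (ord (m + k j)) - W t - ℓ * (ord (m + k j) - t)) := by
      unfold uoW
      rw [hxs]
      push_cast
      ring
    rw [e1, abs_mul, abs_of_pos hw0]
    calc _ ≤ w * 1 := mul_le_mul_of_nonneg_left h1 hw0.le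
      _ = w := mul_one w
  set cs := w * (W t + (L - s : ℕ) + 1) with hcs
  set e₁ := w * (2 * (ε₀ * r)) + w with he₁
  have hAB : ∀ j : Fin (K + K), |(w * uoW m (k j) - cs) - Zf ((2 * L : ℕ) : ℝ) T t (x j.succ)| ≤
      e₁ := by
    intro j
    have h1 := hZ j
    have h2 := hU j
    rw [abs_le] at h1 h2 ⊢
    rw [he₁]
    constructor <;> linarith
  -- the means
  have hmean : |(∑ l : Fin K, (w * uoW m (k (Fin.natAdd K l)) - cs)) / K -
      (∑ l : Fin K, Zf ((2 * L : ℕ) : ℝ) T t (x (Fin.natAdd K l).succ)) / K| ≤ e₁ := by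
    rw [← sub_div, ← Finset.sum_sub_distrib, abs_div, Nat.abs_cast, div_le_iff₀ hK0]
    refine (Finset.abs_sum_le_sum_abs _ _).trans ?_
    calc _ ≤ ∑ _l : Fin K, e₁ := Finset.sum_le_sum fun l _ => hAB _
      _ = e₁ * K := by
          rw [Finset.sum_const, Finset.card_univ, Fintype.card_fin, nsmul_eq_mul]
          ring
  have em1 : (∑ l : Fin K, (w * uoW m (k (Fin.natAdd K l)) - cs)) / K = w * cenW m k - cs := by
    rw [Finset.sum_sub_distrib, Finset.sum_const, Finset.card_univ, Fintype.card_fin, nsmul_eq_mul]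
    unfold cenW
    rw [← Finset.mul_sum]
    field_simp
  have em2 : zv ((2 * L : ℕ) : ℝ) T (fun i => (x i : ℝ)) t (Fin.castAdd K i) -
      (∑ l : Fin K, zv ((2 * L : ℕ) : ℝ) T (fun i => (x i : ℝ)) t (Fin.natAdd K l)) / K =
      Zf ((2 * L : ℕ) : ℝ) T t (x (Fin.castAdd K i).succ) -
      (∑ l : Fin K, Zf ((2 * L : ℕ) : ℝ) T t (x (Fin.natAdd K l).succ)) / K := by
    unfold zv
    rw [Finset.sum_sub_distrib, Finset.sum_const, Finset.card_univ, Fintype.card_fin, nsmul_eq_mul]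
    field_simp
    ring
  rw [em2] at hi
  rw [em1] at hmean
  have hwr : w * (2 * (ε₀ * r)) ≤ 9 * ε₀ := by
    have h5 : w * (2 * (ε₀ * r)) = 2 * (Real.sqrt 2 * Real.pi) * ε₀ := by
      rw [hw]
      field_simp
    rw [h5]
    have h6 : Real.sqrt 2 * Real.pi ≤ 9 / 2 := by
      have h7 : Real.sqrt 2 ≤ 1415 / 1000 := by
        rw [Real.sqrt_le_left (by norm_num)]
        norm_num
      calc Real.sqrt 2 * Real.pi ≤ 1415 / 1000 * 3.15 := mul_le_mul h7 (by linarith) hpi.le (by norm_num)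
        _ ≤ 9 / 2 := by norm_num
    have h7 : 2 * (Real.sqrt 2 * Real.pi) * ε₀ ≤ 9 * ε₀ := mul_le_mul_of_nonneg_right (by linarith) hε₀0.le
    exact h7
  have hmain : w * |uoW m (k (Fin.castAdd K i)) - cenW m k| ≤ (δ + δ') / 2 := by
    rw [← abs_of_pos hw0, ← abs_mul]
    have e1 : w * (uoW m (k (Fin.castAdd K i)) - cenW m k) =
        ((w * uoW m (k (Fin.castAdd K i)) - cs) - Zf ((2 * L : ℕ) : ℝ) T t (x (Fin.castAdd K i).succ)) -
        ((w * cenW m k - cs) -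
          (∑ l : Fin K, Zf ((2 * L : ℕ) : ℝ) T t (x (Fin.natAdd K l).succ)) / K) +
        (Zf ((2 * L : ℕ) : ℝ) T t (x (Fin.castAdd K i).succ) -
          (∑ l : Fin K, Zf ((2 * L : ℕ) : ℝ) T t (x (Fin.natAdd K l).succ)) / K) := by ring
    rw [e1]
    have h1 := hAB (Fin.castAdd K i)
    have h2 := abs_add_le (((w * uoW m (k (Fin.castAdd K i)) - cs) -
      Zf ((2 * L : ℕ) : ℝ) T t (x (Fin.castAdd K i).succ)) -
        ((w * cenW m k - cs) -
          (∑ l : Fin K, Zf ((2 * L : ℕ) : ℝ) T t (x (Fin.natAdd K l).succ)) / K))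
        (Zf ((2 * L : ℕ) : ℝ) T t (x (Fin.castAdd K i).succ) -
          (∑ l : Fin K, Zf ((2 * L : ℕ) : ℝ) T t (x (Fin.natAdd K l).succ)) / K)
    have h3 := abs_sub ((w * uoW m (k (Fin.castAdd K i)) - cs) -
      Zf ((2 * L : ℕ) : ℝ) T t (x (Fin.castAdd K i).succ))
        ((w * cenW m k - cs) -
          (∑ l : Fin K, Zf ((2 * L : ℕ) : ℝ) T t (x (Fin.natAdd K l).succ)) / K)
    rw [he₁] at h1 hmean
    linarith
  -- conclusion
  have hc2' : r * ((δ + δ') / 2) ≤ δ * Real.sqrt (Real.log L) := by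
    refine le_trans ?_ hc2
    have h1 : r * 1 ≤ r * (1 + 2 / Real.log T) := by
      apply mul_le_mul_of_nonneg_left _ (by linarith)
      have : 0 < 2 / Real.log T := by positivity
      linarith
    rw [mul_one] at h1
    exact mul_le_mul_of_nonneg_right h1 (by linarith)
  rw [Real.sqrt_mul (by norm_num : (0 : ℝ) ≤ 2)]
  have h3 : |uoW m (k (Fin.castAdd K i)) - cenW m k| =
      (w * |uoW m (k (Fin.castAdd K i)) - cenW m k|) * (Real.sqrt 2 * r / (2 * Real.pi)) := by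
    have e2 : (w * |uoW m (k (Fin.castAdd K i)) - cenW m k|) * (Real.sqrt 2 * r / (2 * Real.pi)) =
        |uoW m (k (Fin.castAdd K i)) - cenW m k| * ((Real.sqrt 2 * Real.sqrt 2) / 2) := by
      rw [hw]
      field_simp
    rw [e2, hs22]
    ring
  rw [h3]
  calc (w * |uoW m (k (Fin.castAdd K i)) - cenW m k|) * (Real.sqrt 2 * r / (2 * Real.pi))
      ≤ ((δ + δ') / 2) * (Real.sqrt 2 * r / (2 * Real.pi)) :=
        mul_le_mul_of_nonneg_right hmain (by positivity)
    _ = Real.sqrt 2 / (2 * Real.pi) * (r * ((δ + δ') / 2)) := by ring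
    _ ≤ Real.sqrt 2 / (2 * Real.pi) * (δ * Real.sqrt (Real.log L)) :=
        mul_le_mul_of_nonneg_left hc2' (by positivity)
    _ = _ := by ring

end Pool.Agent.P8H60.BW
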