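import Pool.Agent.P8H60.BW.Avg
import Pool.Agent.P8H60.BC.Rec

/-! # All windows at once -/

set_option autoImplicit false

namespace Pool.Agent.P8H60.BW

open Finset
open SG (ord NZ)
open Pool.Agent.R846.UL (cn cn_eq)
open Pool.Agent.P8H60.LM (S_TW)
open Pool.Agent.P8H60.BC

/-- **the theorem for all windows at once** -/
theorem gen_bw (hTW : S_TW) (hGL : S_GL) (hCH : S_CH) (G : ℕ → ℝ)
    (hG : ∀ ε : ℝ, 0 < ε → ∃ k₀ : ℕ, ∀ k ≥ k₀, G k ≤ Real.exp (ε * k)) {δ ε η : ℝ} (hδ : 0 < δ)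
    (hε : 0 < ε) (hη : 0 < η) : ∃ L₀ : ℕ, ∀ L N : ℕ, L₀ ≤ L → 8 * (L * Real.log L) ≤ Real.log N →
    ∀ F : Set (ℕ → ℝ), (∀ f ∈ F, ∀ b : ℝ, (fun j => f j + b) ∈ F) →
    (∀ f ∈ F, (fun j => f (j + 1)) ∈ F) →
    (∀ (s k : ℕ) (y : Fin k → ℝ), 1 ≤ s → ((pat F s k y).ncard : ℝ) ≤ G k) →
    cn N {n | ∃ L' : ℕ, L ≤ L' ∧ L' ≤ N ∧ ∃ f ∈ F, (pG δ + ε) * L' < (hwW δ L L' n f : ℝ)} ≤ η * N := by
  classical
  -- we may assume `ε ≤ 1`
  obtain ⟨ε', hε'⟩ : ∃ ε' : ℝ, ε' = min ε 1 := ⟨_, rfl⟩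
  have hε'0 : 0 < ε' := by rw [hε']; exact lt_min hε one_pos
  have hε'1 : ε' ≤ 1 := by rw [hε']; exact min_le_right _ _
  have hε'ε : ε' ≤ ε := by rw [hε']; exact min_le_left _ _
  -- a slightly larger distance
  obtain ⟨δ₁, hδ₁⟩ : ∃ δ₁ : ℝ, δ₁ = δ + ε' / 16 := ⟨_, rfl⟩
  have hδ₁0 : 0 < δ₁ := by rw [hδ₁]; positivity
  have hδδ : δ < δ₁ := by rw [hδ₁]; linarith
  have hp0 : 0 ≤ pG δ := MeasureTheory.measureReal_nonneg
  have hp1 : pG δ ≤ 1 := by
    unfold pG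
    exact MeasureTheory.measureReal_le_one
  have hp : pG δ₁ ≤ pG δ + ε' / 8 := by
    rw [Pool.Agent.P8H7.BC.pG_eq _ hδ.le, Pool.Agent.P8H7.BC.pG_eq _ hδ₁0.le, hδ₁]
    have := Pool.Agent.P8H7.BC.G_lip δ (ε' / 16) (by positivity)
    linarith
  obtain ⟨C, hC⟩ : ∃ C : ℕ, C = ⌈8 / ε'⌉₊ + 1 := ⟨_, rfl⟩
  have hC1 : 1 ≤ C := by omega
  have hCr : 8 / ε' ≤ C := by
    rw [hC]
    push_cast
    linarith [Nat.le_ceil (8 / ε')]
  have hC0 : (0 : ℝ) < C := by exact_mod_cast hC1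
  rw [div_le_iff₀ hε'0] at hCr
  obtain ⟨L₁₀, hfix⟩ := fix_bw hTW hGL hCH G hG hδ₁0 (show (0 : ℝ) < ε' / 8 by positivity)
    (show (0 : ℝ) < η / (4 * C) by positivity)
  -- comparison of the logarithms
  obtain ⟨L₂, hL₂⟩ : ∃ L₂ : ℕ, ∀ L : ℕ, L₂ ≤ L → ∀ L₁ : ℕ, L ≤ 2 * C * L₁ →
      δ * Real.sqrt (2 * Real.log L) ≤ δ₁ * Real.sqrt (2 * Real.log L₁) := by
    obtain ⟨q, hq⟩ : ∃ q : ℝ, q = δ ^ 2 / δ₁ ^ 2 := ⟨_, rfl⟩
    have hq1 : q < 1 := by
      rw [hq, div_lt_one (by positivity)]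
      exact pow_lt_pow_left₀ hδδ hδ.le (by norm_num)
    obtain ⟨L₂, hL₂⟩ := exists_nat_ge (Real.exp (Real.log (2 * C) / (1 - q)))
    refine ⟨L₂, fun L hL L₁ hL₁ => ?_⟩
    have hL0 : (0 : ℝ) < L := lt_of_lt_of_le (Real.exp_pos _) (hL₂.trans (by exact_mod_cast hL))
    have h1 : Real.log (2 * C) / (1 - q) ≤ Real.log L := by
      rw [Real.le_log_iff_exp_le hL0]
      exact hL₂.trans (by exact_mod_cast hL)
    rw [div_le_iff₀ (by linarith)] at h1
    have hL₁0 : (0 : ℝ) < L₁ := by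
      rcases Nat.eq_zero_or_pos L₁ with h | h
      · rw [h] at hL₁
        have : L = 0 := by omega
        rw [this] at hL0
        simp at hL0
      · exact_mod_cast h
    have h2 : Real.log L ≤ Real.log (2 * C) + Real.log L₁ := by
      rw [← Real.log_mul (by positivity) (by positivity)]
      exact Real.log_le_log hL0 (by exact_mod_cast hL₁)
    have h3 : q * Real.log L ≤ Real.log L₁ := by nlinarith
    have h4 : δ * Real.sqrt (2 * Real.log L) = Real.sqrt (δ ^ 2 * (2 * Real.log L)) := by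
      rw [Real.sqrt_mul (sq_nonneg δ), Real.sqrt_sq hδ.le]
    have h5 : δ₁ * Real.sqrt (2 * Real.log L₁) = Real.sqrt (δ₁ ^ 2 * (2 * Real.log L₁)) := by
      rw [Real.sqrt_mul (sq_nonneg δ₁), Real.sqrt_sq hδ₁0.le]
    rw [h4, h5]
    apply Real.sqrt_le_sqrt
    have h6 : δ ^ 2 = q * δ₁ ^ 2 := by
      rw [hq]
      field_simp
    rw [h6]
    have h7 : 0 < δ₁ ^ 2 := by positivity
    nlinarith
  refine ⟨(L₁₀ + 1) * C + L₂ + 4 * C + ⌈16 / ε'⌉₊ + ⌈2 * C * NZ 3 / η⌉₊, fun L N hL hLN F hF1 hF2 hF3 => ?_⟩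
  have hcL : L₂ ≤ L := by omega
  have h4C : 4 * C ≤ L := by omega
  have hc16 : 16 / ε' ≤ L := (Nat.le_ceil _).trans (by exact_mod_cast (by omega : ⌈16 / ε'⌉₊ ≤ L))
  rw [div_le_iff₀ hε'0] at hc16
  obtain ⟨L₁, hL₁⟩ : ∃ L₁ : ℕ, L₁ = L / C := ⟨_, rfl⟩
  have hL₁C : L₁ * C ≤ L := by rw [hL₁]; exact Nat.div_mul_le_self L C
  have hL₁C2 : L < L₁ * C + C := by
    rw [hL₁]
    exact Nat.lt_div_mul_add hC1 (a := L)
  have hL₁1 : L₁₀ + 1 ≤ L₁ := by
    rw [hL₁, Nat.le_div_iff_mul_le hC1]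
    omega
  have hLC : L ≤ 2 * C * L₁ := by
    have h1 : C ≤ L₁ * C := Nat.le_mul_of_pos_left C (by omega)
    have h2 : 2 * C * L₁ = L₁ * C + L₁ * C := by ring
    omega
  have hL₁L : L₁ ≤ L := le_trans (Nat.le_mul_of_pos_right L₁ (by omega)) hL₁C
  have hcmp := hL₂ L hcL L₁ hLC
  have hLr1 : (1 : ℝ) ≤ L₁ := by exact_mod_cast (by omega : 1 ≤ L₁)
  have hLr : (L₁ : ℝ) ≤ L := by exact_mod_cast hL₁L
  have hN0 : (0 : ℝ) < N := by
    have h1 : (4 : ℝ) ≤ L := by exact_mod_cast (by omega : 4 ≤ L)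
    have h2 : 0 < Real.log L := Real.log_pos (by linarith)
    have h3 : 0 < Real.log N := by nlinarith
    rcases Nat.eq_zero_or_pos N with h | h
    · rw [h] at h3
      simp at h3
    · exact_mod_cast h
  have hN1 : 1 ≤ N := by exact_mod_cast hN0
  have hNL : (L : ℝ) ≤ N := by
    have h1 : (4 : ℝ) ≤ L := by exact_mod_cast (by omega : 4 ≤ L)
    have h2 : 1 ≤ Real.log L := by
      rw [Real.le_log_iff_exp_le (by linarith)]
      linarith [Real.exp_one_lt_d9]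
    have h3 := Real.log_le_sub_one_of_pos hN0
    nlinarith
  have hcN : 2 * C * (NZ 3 : ℝ) / η ≤ L := (Nat.le_ceil _).trans
    (by exact_mod_cast (by omega : ⌈2 * C * NZ 3 / η⌉₊ ≤ L))
  rw [div_le_iff₀ hη] at hcN
  have hlog : 8 * ((L₁ : ℝ) * Real.log L₁) ≤ Real.log ((2 * N : ℕ) : ℝ) := by
    have h1 : Real.log L₁ ≤ Real.log L := Real.log_le_log (by linarith) hLr
    have h2 : 0 ≤ Real.log L₁ := Real.log_nonneg hLr1
    have h3 : (L₁ : ℝ) * Real.log L₁ ≤ L * Real.log L := mul_le_mul hLr h1 h2 (by linarith)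
    have h4 : Real.log N ≤ Real.log ((2 * N : ℕ) : ℝ) := by
      apply Real.log_le_log hN0
      push_cast
      linarith
    linarith
  have hsh := iter_shift hF2
  have hg := hfix L₁ (2 * N) (by omega) hlog F hF1 (fun b s k y hs => by
    refine le_trans ?_ (hF3 s k y hs)
    have hsub : pb F b s k y ⊆ pat F s k y := by
      rintro A ⟨f, hf, rfl⟩
      exact ⟨_, hsh b f hf, rfl⟩
    exact_mod_cast Set.ncard_le_ncard hsub (Set.toFinite _))
  set B : ℕ → Prop := fun n => ∃ f ∈ F, (pG δ₁ + ε' / 8) * L₁ ≤ (hwW δ₁ L₁ L₁ n f : ℝ) with hB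
  rw [cn_eq] at hg
  rw [cn_eq]
  set E : ℕ → Prop := fun n => ∃ L' : ℕ, L ≤ L' ∧ L' ≤ N ∧ ∃ f ∈ F,
    (pG δ + ε) * L' < (hwW δ L L' n f : ℝ) with hE
  obtain ⟨B', hB'⟩ : ∃ B' : ℕ → Prop, ∀ n, B' n ↔ (B n ∨ n ≤ NZ 3) := ⟨_, fun _ => Iff.rfl⟩
  have hm := maxiC B' E N C (fun n hn1 hnN hn => by
    obtain ⟨L', hL'1, hL'2, f, hf, hcnt⟩ := hn
    refine ⟨L', hL'2, ?_⟩
    rw [hwW_eq] at hcnt
    have hL'r : (L : ℝ) ≤ L' := by exact_mod_cast hL'1
    have h1 := slide (L₁ := L₁) (L' := L') (by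
        have : 2 * L₁ ≤ L₁ * C := by
          rw [mul_comm]
          apply Nat.mul_le_mul_left
          rw [hC]
          have h8 : 1 ≤ ⌈8 / ε'⌉₊ := Nat.one_le_ceil_iff.2 (by positivity)
          omega
        omega) (fun j => nrW δ L n f j) (fun k => B' (n + k))
        (q := pG δ₁ + ε' / 8) (by
          have : 0 ≤ pG δ₁ := MeasureTheory.measureReal_nonneg
          positivity) (fun k hk hbk => by
        by_contra hcon
        push Not at hcon
        apply hbk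
        have h3 : ¬ n + k ≤ NZ 3 := fun h => hbk ((hB' _).2 (Or.inr h))
        refine (hB' _).2 (Or.inl ?_)
        refine ⟨fun j => f (k + j), hsh k f hf, ?_⟩
        refine hcon.le.trans ?_
        rw [hwW_eq]
        have hsub : (range (L₁ + 1)).filter (fun j => nrW δ L n f (k + j)) ⊆
            (range (L₁ + 1)).filter (fun j => nrW δ₁ L₁ (n + k) (fun j => f (k + j)) j) := by
          intro j hj
          rw [mem_filter] at hj ⊢
          refine ⟨hj.1, ?_⟩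
          have h4 := hj.2
          unfold nrW at h4 ⊢
          have e1 : n + k + j = n + (k + j) := by omega
          rw [e1]
          refine h4.trans ?_
          exact div_le_div_of_nonneg_right hcmp (by positivity)
        exact_mod_cast card_le_card hsub)
    have h2 : (((range (L' + 1)).filter (fun k => B' (n + k))).card : ℝ) ≤
        (((Icc n (n + L')).filter B').card : ℝ) := by
      have h3 : ((range (L' + 1)).filter (fun k => B' (n + k))).card ≤ ((Icc n (n + L')).filter B').card := by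
        refine card_le_card_of_injOn (fun k => n + k) (fun k hk => ?_) (fun x _ y _ h => ?_)
        · rw [mem_coe, mem_filter, mem_range] at hk
          rw [mem_coe, mem_filter, mem_Icc]
          refine ⟨⟨?_, ?_⟩, hk.2⟩
          · show n ≤ n + k
            omega
          · show n + k ≤ n + L'
            omega
        · simpa using h
      exact_mod_cast h3
    set X := (((Icc n (n + L')).filter B').card : ℝ) with hX
    have hCL : (C : ℝ) * L₁ ≤ L := by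
      have : C * L₁ ≤ L := by rw [mul_comm]; exact hL₁C
      exact_mod_cast this
    -- `8 ≤ C ε'`, so `L₁ ≤ ε' L / 8`
    have h3 : (L₁ : ℝ) ≤ ε' / 8 * L' := by
      have h4 : 8 * (L₁ : ℝ) ≤ C * ε' * L₁ := mul_le_mul_of_nonneg_right hCr (by linarith)
      have h5 : ε' * (C * L₁) ≤ ε' * L := mul_le_mul_of_nonneg_left hCL hε'0.le
      have h6 : ε' * L ≤ ε' * L' := mul_le_mul_of_nonneg_left hL'r hε'0.le
      nlinarith
    have h4 : (pG δ + ε') * L' ≤ (pG δ + ε) * L' := mul_le_mul_of_nonneg_right (by linarith) (by linarith)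
    have h5 : (pG δ₁ + ε' / 8) * (L' + 1) ≤ (pG δ + ε' / 4) * (L' + 1) :=
      mul_le_mul_of_nonneg_right (by linarith) (by linarith)
    have h6 : ε' * L' ≥ 16 := by nlinarith
    have h7 : ε' / 4 * (L' + 1) ≤ X := by
      have h8 : (pG δ + ε' / 4) * ((L' : ℝ) + 1) = pG δ * L' + ε' * L' / 4 + pG δ + ε' / 4 := by ring
      have h9 : (pG δ + ε') * (L' : ℝ) = pG δ * L' + ε' * L' := by ring
      have h10 : ε' / 8 * (L' : ℝ) = ε' * L' / 8 := by ring
      have h11 : ε' / 4 * ((L' : ℝ) + 1) = ε' * L' / 4 + ε' / 4 := by ring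
      rw [h8] at h5
      rw [h9] at h4
      rw [h10] at h3
      rw [h11]
      linarith
    have h8 : ((L' : ℝ) + 1) ≤ C * X := by
      have h9 : C * (ε' / 4 * (L' + 1)) ≤ C * X := mul_le_mul_of_nonneg_left h7 hC0.le
      have h10 : (L' : ℝ) + 1 ≤ C * (ε' / 4 * (L' + 1)) := by
        have h11 : 0 < (L' : ℝ) + 1 := by linarith
        nlinarith
      linarith
    have h9 : ((L' + 1 : ℕ) : ℝ) ≤ ((C * ((Icc n (n + L')).filter B').card : ℕ) : ℝ) := by
      push_cast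
      exact h8
    exact_mod_cast h9)
  have hB'c : ((Icc 1 (2 * N)).filter B').card ≤ ((Icc 1 (2 * N)).filter B).card + NZ 3 := by
    have h1 : (Icc 1 (2 * N)).filter B' ⊆ (Icc 1 (2 * N)).filter B ∪ Icc 1 (NZ 3) := by
      intro n hn
      rw [mem_filter, mem_Icc] at hn
      rw [mem_union, mem_filter, mem_Icc, mem_Icc]
      rcases (hB' n).1 hn.2 with h | h
      · exact Or.inl ⟨hn.1, h⟩
      · exact Or.inr ⟨hn.1.1, h⟩
    have h2 := (card_le_card h1).trans (card_union_le _ _)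
    rw [Nat.card_Icc, Nat.add_sub_cancel] at h2
    exact h2
  have h1 : (((Icc 1 N).filter E).card : ℝ) ≤ C * ((((Icc 1 (2 * N)).filter B).card : ℝ) + NZ 3) := by
    have h2 := hm.trans (Nat.mul_le_mul_left C hB'c)
    exact_mod_cast h2
  refine h1.trans ?_
  have h2 : (C : ℝ) * (((Icc 1 (2 * N)).filter B).card : ℝ) ≤ C * (η / (4 * C) * ((2 * N : ℕ) : ℝ)) :=
    mul_le_mul_of_nonneg_left hg hC0.le
  have h3 : (C : ℝ) * (η / (4 * C) * ((2 * N : ℕ) : ℝ)) = η / 2 * N := by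
    push_cast
    field_simp
    ring
  have h4 : (L : ℝ) * η ≤ N * η := mul_le_mul_of_nonneg_right hNL hη.le
  rw [mul_add]
  linarith

end Pool.Agent.P8H60.BW
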