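import Pool.Agent.P8H60.BW.Max

/-! # The theorem for solutions of linear recurrences -/

set_option autoImplicit false

namespace Pool.Agent.P8H60.BW

open Finset
open Pool.Agent.R846.UL (cn cn_mono)
open Pool.Agent.P8H60.LM (S_TW)
open Pool.Agent.P8H60.BC

/-- **no solution of a linear recurrence follows the zeros** -/
theorem rec_bw (hTW : S_TW) (hGL : S_GL) (hCH : S_CH) (hRC : S_RC) (d : ℕ) {δ ε η : ℝ} (hδ : 0 < δ)
    (hε : 0 < ε) (hη : 0 < η) : ∃ L₀ : ℕ, ∀ L N : ℕ, L₀ ≤ L → 8 * (L * Real.log L) ≤ Real.log N →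
    cn N {n | ∃ L' : ℕ, L ≤ L' ∧ L' ≤ N ∧ ∃ f ∈ Fd d, (pG δ + ε) * L' < (hwW δ L L' n f : ℝ)} ≤
      η * N := by
  classical
  set G : ℕ → ℝ := fun k => ⨆ p : ℕ × (Fin k → ℝ), ((pat (Fd (d + 1)) p.1 k p.2).ncard : ℝ) with hG
  have hbdd : ∀ k, BddAbove (Set.range fun p : ℕ × (Fin k → ℝ) =>
      ((pat (Fd (d + 1)) p.1 k p.2).ncard : ℝ)) := by
    intro k
    refine ⟨((Set.univ : Set (Set (Fin k))).ncard : ℝ), ?_⟩
    rintro x ⟨p, rfl⟩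
    have h1 : (pat (Fd (d + 1)) p.1 k p.2).ncard ≤ (Set.univ : Set (Set (Fin k))).ncard :=
      Set.ncard_le_ncard (Set.subset_univ _) (Set.toFinite _)
    exact Nat.cast_le.2 h1
  obtain ⟨L₀, h⟩ := gen_bw hTW hGL hCH G (fun e he => by
    obtain ⟨k₀, hk₀⟩ := hRC (d + 1) e he
    refine ⟨k₀, fun k hk => ?_⟩
    exact ciSup_le fun p => hk₀ k hk p.1 p.2) hδ hε hη
  refine ⟨L₀, fun L N hL hLN => ?_⟩
  refine le_trans (cn_mono fun n _ _ hn => ?_) (h L N hL hLN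
    {f | ∃ g ∈ Fd d, ∃ c : ℝ, f = fun j => g j + c} ?_ ?_ ?_)
  · obtain ⟨L', h1, h2, f, hf, h3⟩ := hn
    exact ⟨L', h1, h2, f, ⟨f, hf, 0, by simp⟩, h3⟩
  · rintro f ⟨g, hg, c, rfl⟩ b
    exact ⟨g, hg, c + b, by funext j; ring⟩
  · rintro f ⟨g, ⟨b, hb, hg⟩, c, rfl⟩
    refine ⟨fun j => g (j + 1), ⟨b, hb, fun j => ?_⟩, c, rfl⟩
    have h1 := hg (j + 1)
    refine Eq.trans (sum_congr rfl fun l _ => ?_) h1
    have : j + (l : ℕ) + 1 = j + 1 + l := by omega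
    show b l * g (j + l + 1) = b l * g (j + 1 + l)
    rw [this]
  · intro s k y _
    have hsub : pat {f | ∃ g ∈ Fd d, ∃ c : ℝ, f = fun j => g j + c} s k y ⊆ pat (Fd (d + 1)) s k y := by
      rintro A ⟨f, ⟨g, hg, c, rfl⟩, rfl⟩
      exact ⟨_, Fd_const hg c, rfl⟩
    have h1 : ((pat {f | ∃ g ∈ Fd d, ∃ c : ℝ, f = fun j => g j + c} s k y).ncard : ℝ) ≤
        ((pat (Fd (d + 1)) s k y).ncard : ℝ) := by
      exact_mod_cast Set.ncard_le_ncard hsub (Set.toFinite _)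
    exact h1.trans (le_ciSup (hbdd k) (s, y))

end Pool.Agent.P8H60.BW
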