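import Pool.Agent.P8H60.BC.LBlk

/-! # The run following a height, normalised ordinates -/

set_option autoImplicit false

namespace Pool.Agent.P8H60.BW

open Filter Topology MeasureTheory
open Pool.Agent.R846.VS (Dd)
open Pool.Agent.P8H60.LM (S_TW nearQ near_all2)
open Pool.Agent.P8H60.BC
open SG (NZ ord)

/-- the normalisation -/
noncomputable def W (u : ℝ) : ℝ := u * Real.log u / (2 * Real.pi)

lemma xlog_ge {x y : ℝ} (hx : 0 < x) (hy : 0 < y) :
    (x - y) * (Real.log y + 1) ≤ x * Real.log x - y * Real.log y := by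
  have h1 : 1 - y / x ≤ Real.log (x / y) := by
    have h2 := Real.log_le_sub_one_of_pos (div_pos hy hx)
    have h3 : Real.log (y / x) = - Real.log (x / y) := by
      rw [← Real.log_inv, inv_div]
    linarith
  rw [Real.log_div hx.ne' hy.ne'] at h1
  have h4 : x * (1 - y / x) ≤ x * (Real.log x - Real.log y) := mul_le_mul_of_nonneg_left h1 hx.le
  have h5 : x * (1 - y / x) = x - y := by field_simp
  rw [h5] at h4
  nlinarith

/-- the normalisation is nearly linear near `T` -/
lemma W_lin {o t T ℓ : ℝ} (hT : 11 ≤ T) (ht : t ∈ Set.Icc T (2 * T)) (ho : |o - t| ≤ 1)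
    (hℓ : ℓ = Real.log T / (2 * Real.pi)) : |W o - W t - ℓ * (o - t)| ≤ 1 := by
  have hpi := Real.pi_gt_three
  have ho' := abs_le.1 ho
  have hT0 : 0 < T := by linarith
  have ht0 : 0 < t := by linarith [ht.1]
  have ho0 : 0 < o := by linarith [ht.1]
  have hlogb : ∀ z : ℝ, |z - t| ≤ 1 → |Real.log z - Real.log T| ≤ 2 := by
    intro z hz
    rw [abs_le] at hz
    have h1 : T - 1 ≤ z := by linarith [ht.1]
    have h2 : z ≤ 2 * T + 1 := by linarith [ht.2]
    have hz0 : 0 < z := by linarith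
    have h5 : (3 : ℝ) ≤ Real.exp 2 := by
      have := Real.add_one_le_exp (2 : ℝ)
      linarith
    have h3 : Real.log z ≤ Real.log T + 2 := by
      have h4 : Real.log z ≤ Real.log (T * Real.exp 2) := by
        apply Real.log_le_log hz0
        nlinarith
      rwa [Real.log_mul (by positivity) (by positivity), Real.log_exp] at h4
    have h4 : Real.log T ≤ Real.log z + 2 := by
      have h5 : Real.log T ≤ Real.log (z * Real.exp 2) := by
        apply Real.log_le_log hT0
        nlinarith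
      rwa [Real.log_mul (by positivity) (by positivity), Real.log_exp] at h5
    rw [abs_le]
    constructor <;> linarith
  have l1 := abs_le.1 (hlogb o ho)
  have l2 := abs_le.1 (hlogb t (by simp))
  have a1 := xlog_ge ho0 ht0
  have a2 := xlog_ge ht0 ho0
  have e1 : W o - W t - ℓ * (o - t) =
      ((o * Real.log o - t * Real.log t) - Real.log T * (o - t)) / (2 * Real.pi) := by
    unfold W
    rw [hℓ]
    ring
  rw [e1, abs_div, abs_of_pos (by positivity : 0 < 2 * Real.pi), div_le_one (by positivity)]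
  have b1 : |(o - t) * (Real.log t + 1 - Real.log T)| ≤ 3 := by
    rw [abs_mul]
    calc |o - t| * |Real.log t + 1 - Real.log T| ≤ 1 * 3 := by
          apply mul_le_mul ho _ (abs_nonneg _) zero_le_one
          rw [abs_le]
          constructor <;> linarith
      _ = 3 := by norm_num
  have b2 : |(o - t) * (Real.log o + 1 - Real.log T)| ≤ 3 := by
    rw [abs_mul]
    calc |o - t| * |Real.log o + 1 - Real.log T| ≤ 1 * 3 := by
          apply mul_le_mul ho _ (abs_nonneg _) zero_le_one
          rw [abs_le]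
          constructor <;> linarith
      _ = 3 := by norm_num
  rw [abs_le] at b1 b2 ⊢
  constructor
  · nlinarith
  · nlinarith

/-- **for most heights no vector of a family with few sign patterns is near the normalised ordinates at
many places** -/
theorem run_bw (hTW : S_TW) (hGL : S_GL) (hCH : S_CH) {δ ε : ℝ} (hδ : 0 < δ) (hε : 0 < ε) :
    ∃ (c : ℝ) (M : ℕ), 0 < c ∧ ∀ (K : ℕ) (g η : ℝ), 1 ≤ K → 0 < η → g ^ M ≤ Real.exp (c * K) →
    Real.exp (-(c * K)) ≤ η / 4 → ∀ κ : ℝ, 0 < κ → ∀ S' : ℕ, ∃ L₀ : ℕ, ∀ (L : ℕ) (T : ℝ), L₀ ≤ L →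
    1 ≤ T → ((2 * L : ℕ) : ℝ) * Real.log ((2 * L : ℕ) : ℝ) ≤ Real.log T →
    ∀ k : Fin K → ℕ, (∀ i, k i ≤ L) → (∀ i j, i ≠ j → κ * L ≤ |(k i : ℝ) - k j|) →
    ∀ V : Set (Fin K → ℝ), (∀ v ∈ V, ∀ b : ℝ, (fun i => v i + b) ∈ V) →
    (∀ y : Fin K → ℝ, ((pv V y).ncard : ℝ) ≤ g) → ∀ s ≤ S',
    volume {t ∈ Set.Icc T (2 * T) | ∃ v ∈ V, (pG δ + ε) * K ≤
      (({i | |W (ord (NZ t + 1 + (L - s + k i))) - v i| ≤ δ * Real.sqrt (2 * Real.log L) / (2 * Real.pi)} :
        Set (Fin K)).ncard : ℝ)} ≤ ENNReal.ofReal (η * T) := by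
  classical
  have hpi := Real.pi_pos
  have hpi3 := Real.pi_gt_three
  have hpi4 := Real.pi_lt_d2
  obtain ⟨δ', M, θ, c, hδ', hc, hgau⟩ := gau hGL hCH δ ε hδ hε
  refine ⟨c, M, hc, fun K g η hK hη hg hcη κ hκ S' => ?_⟩
  obtain ⟨κ', hκ'⟩ : ∃ κ' : ℝ, κ' = min (κ / 2) (1 / 8) := ⟨_, rfl⟩
  have hκ'0 : 0 < κ' := by rw [hκ']; exact lt_min (by linarith) (by norm_num)
  have hκ'1 : κ' ≤ κ / 2 := by rw [hκ']; exact min_le_left _ _
  have hκ'2 : κ' ≤ 1 / 8 := by rw [hκ']; exact min_le_right _ _
  obtain ⟨ε₀, hε₀⟩ : ∃ ε₀ : ℝ, ε₀ = (δ' - δ) / 80 := ⟨_, rfl⟩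
  have hε₀0 : 0 < ε₀ := by rw [hε₀]; linarith
  obtain ⟨A₁, Q, hA₁, hQ, hnear⟩ := near_all2 (η := η / 2) (by positivity) hε₀0 K hK
  obtain ⟨R₁, hR₁, hjoint⟩ := joint_x hTW 1 le_rfl hκ'0 hK
    (ι := {𝒞 : Finset (Fin K → Fin M → Bool) // (𝒞.card : ℝ) ≤ Real.exp (c * K)})
    (fun 𝒞 => FS δ' ((pG δ + ε) * K) θ 𝒞.1) (fun 𝒞 => FS_closed _ _ _ _) (η := η / 4) (ρ := η / 4)
    (by positivity) (fun 𝒞 => (hgau K 𝒞.1 𝒞.2).trans hcη)
  obtain ⟨L₁, hnum⟩ := num_A hδ hδ' hQ
  refine ⟨⌈A₁⌉₊ + ⌈R₁⌉₊ + 4 * S' + 4 + L₁, fun L T hL hT hlog k hk1 hk2 V hV1 hV2 s hs => ?_⟩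
  obtain ⟨r, hr⟩ : ∃ r : ℝ, r = Real.sqrt (Real.log ((2 * L : ℕ) : ℝ)) := ⟨_, rfl⟩
  obtain ⟨hr1, hL1, hT10, hw4, -, hc3, -⟩ := hnum L T r (by omega) hT hlog hr
  have haA : A₁ ≤ ((2 * L : ℕ) : ℝ) :=
    (Nat.le_ceil A₁).trans (by exact_mod_cast (by omega : ⌈A₁⌉₊ ≤ 2 * L))
  have haR : R₁ ≤ ((2 * L : ℕ) : ℝ) :=
    (Nat.le_ceil R₁).trans (by exact_mod_cast (by omega : ⌈R₁⌉₊ ≤ 2 * L))
  have hL1r : (1 : ℝ) ≤ L := by exact_mod_cast hL1
  have hT0 : 0 < T := by linarith
  have hT11 : 11 ≤ T := by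
    have := Real.log_le_sub_one_of_pos hT0
    linarith
  -- the positions
  set x : Fin (K + 1) → ℕ := Fin.cons (L / 2) (fun i => L - s + k i) with hx
  have hx0 : x 0 = L / 2 := rfl
  have hxs : ∀ i : Fin K, x i.succ = L - s + k i := fun i => by rw [hx, Fin.cons_succ]
  have hPX := PX_mk hκ'1 hκ'2 hs (show 4 * S' + 4 ≤ L by omega) k hk1 hk2 x hx0 hxs
  have hxa : ∀ i, x i ≤ 2 * L := by
    intro i
    refine Fin.cases ?_ (fun j => ?_) i
    · rw [hx0]; omega
    · rw [hxs]
      have := hk1 j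
      omega
  set P : Finset ℕ := Finset.univ.image x with hP
  have hPm : ∀ i, x i ∈ P := fun i => Finset.mem_image.2 ⟨i, Finset.mem_univ i, rfl⟩
  have hPc : P.card ≤ 4 * K := by
    have h1 : P.card ≤ (Finset.univ : Finset (Fin (K + 1))).card := Finset.card_image_le
    rw [Finset.card_univ, Fintype.card_fin] at h1
    omega
  have hPa : ∀ y ∈ P, y ≤ 2 * L := by
    intro y hy
    obtain ⟨i, -, rfl⟩ := Finset.mem_image.1 hy
    exact hxa i
  have hv1 := hnear (2 * L) T haA hT hlog P hPc hPa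
  -- the labels
  obtain ⟨ℓ, hℓ⟩ : ∃ ℓ : ℝ, ℓ = Real.log T / (2 * Real.pi) := ⟨_, rfl⟩
  have hℓ0 : 0 < ℓ := by rw [hℓ]; positivity
  have h2s : 0 < Real.sqrt 2 := Real.sqrt_pos.2 (by norm_num)
  obtain ⟨w, hw⟩ : ∃ w : ℝ, w = Real.sqrt 2 * (Real.pi / r) := ⟨_, rfl⟩
  have hw0 : 0 < w := by rw [hw]; positivity
  rw [← hw] at hw4
  rw [← hℓ] at hc3
  set nv : (Fin K → ℝ) → Fin K → ℝ := fun v i => w * (v i - x i.succ - 1) with hnv
  set 𝒞 : Finset (Fin K → Fin M → Bool) := Finset.univ.filter fun c => ∃ v ∈ V,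
    ∀ i m, c i m = true ↔ nv v i ≤ θ m with h𝒞
  have hcard : (𝒞.card : ℝ) ≤ Real.exp (c * K) := by
    refine (lab_card V (fun m i => θ m / w + x i.succ + 1) hV2 𝒞 fun c hc => ?_).trans hg
    obtain ⟨v, hv, h⟩ := (Finset.mem_filter.1 hc).2
    refine ⟨v, hv, fun i m => (h i m).trans ?_⟩
    simp only [hnv]
    constructor
    · intro h1
      have h2 : v i - x i.succ - 1 ≤ θ m / w := by
        rw [le_div_iff₀ hw0]
        linarith
      linarith
    · intro h1
      have h2 : v i - x i.succ - 1 ≤ θ m / w := by linarith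
      rw [le_div_iff₀ hw0] at h2
      linarith
  have hv2 := hjoint ((2 * L : ℕ) : ℝ) T haR hT (by linarith) (fun i => (x i : ℝ)) hPX ⟨𝒞, hcard⟩
  refine (measure_mono ?_).trans ((measure_union_le _ _).trans ((add_le_add hv1 hv2).trans ?_))
  · rintro t ⟨ht, v, hv, hcnt⟩
    by_cases hG : nearQ P T (ε₀ * Real.sqrt (Real.log ((2 * L : ℕ) : ℝ)))
        (Q * Real.sqrt (Real.log ((2 * L : ℕ) : ℝ))) t
    · right
      refine ⟨ht, ?_⟩
      rw [← hr] at hG
      -- the ordinates are near `t`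
      have hord : ∀ i, |ord (NZ t + 1 + x i) - t| ≤ 1 := by
        intro i
        obtain ⟨h2, h3⟩ := hG (x i) (hPm i)
        have h4 : (x i : ℝ) ≤ 2 * L := by exact_mod_cast hxa i
        have h5 : (0 : ℝ) ≤ x i := Nat.cast_nonneg _
        have h6 : |ord (NZ t + 1 + x i) - t| * ℓ ≤ ℓ := by
          rw [← abs_of_pos hℓ0, ← abs_mul, abs_of_pos hℓ0]
          rw [← hℓ] at h2
          rw [hε₀] at h2
          rw [abs_le] at h2 h3 ⊢
          constructor <;> linarith
        by_contra hcon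
        push Not at hcon
        have : 1 * ℓ < |ord (NZ t + 1 + x i) - t| * ℓ := mul_lt_mul_of_pos_right hcon hℓ0
        linarith
      -- the shifted vector
      set b := -W t - tau ((2 * L : ℕ) : ℝ) T t (fun i => (x i : ℝ)) / w with hb
      have hvb := hV1 v hv b
      set v' : Fin K → ℝ := fun i => v i + b with hv'
      show zv ((2 * L : ℕ) : ℝ) T (fun i => (x i : ℝ)) t ∈ FS δ' ((pG δ + ε) * K) θ 𝒞
      refine ⟨fun i m => decide (nv v' i ≤ θ m), ?_, hcnt.trans ?_⟩
      · rw [h𝒞, Finset.mem_filter]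
        refine ⟨Finset.mem_univ _, v', hvb, fun i m => ?_⟩
        simp
      · unfold cnt
        have hsub : ({i | |W (ord (NZ t + 1 + (L - s + k i))) - v i| ≤
            δ * Real.sqrt (2 * Real.log L) / (2 * Real.pi)} : Set (Fin K)) ⊆
            {i | zv ((2 * L : ℕ) : ℝ) T (fun i => (x i : ℝ)) t i ∈
              Bs δ' θ (fun m => decide (nv v' i ≤ θ m))} := by
          intro i hi
          rw [Set.mem_ofPred_eq] at hi ⊢
          have hkey : |zv ((2 * L : ℕ) : ℝ) T (fun i => (x i : ℝ)) t i - nv v' i| ≤ δ' := by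
            have h1 := (hG (x i.succ) (hPm _)).1
            rw [← hℓ] at h1
            have h2 : zv ((2 * L : ℕ) : ℝ) T (fun i => (x i : ℝ)) t i - nv v' i =
                w * (W (ord (NZ t + 1 + x i.succ)) - v i) -
                w * ((ord (NZ t + 1 + x i.succ) - t) * ℓ - (x i.succ + 1) + Dd T t (x i.succ)) -
                w * (W (ord (NZ t + 1 + x i.succ)) - W t - ℓ * (ord (NZ t + 1 + x i.succ) - t)) := by
              simp only [hnv, hv', hb]
              unfold zv Zf
              rw [← hr]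
              have e1 : w * ((v i + (-W t - tau ((2 * L : ℕ) : ℝ) T t (fun i => (x i : ℝ)) / w)) -
                  (x i.succ : ℝ) - 1) = w * (v i - W t - x i.succ - 1) -
                  tau ((2 * L : ℕ) : ℝ) T t (fun i => (x i : ℝ)) := by
                field_simp
                ring
              rw [e1, hw]
              ring
            rw [h2]
            have h8 := W_lin hT11 ht (hord i.succ) hℓ
            rw [← hxs] at hi
            have h3 : |w * (W (ord (NZ t + 1 + x i.succ)) - v i)| ≤ δ := by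
              rw [abs_mul, abs_of_pos hw0]
              refine (mul_le_mul_of_nonneg_left hi hw0.le).trans ?_
              have h5 : Real.sqrt (2 * Real.log L) = Real.sqrt 2 * Real.sqrt (Real.log L) :=
                Real.sqrt_mul (by norm_num) _
              have h6 : Real.sqrt (Real.log L) ≤ r := by
                rw [hr]
                apply Real.sqrt_le_sqrt
                apply Real.log_le_log (by linarith)
                push_cast
                linarith
              have h7 : Real.sqrt 2 * Real.sqrt 2 = 2 := Real.mul_self_sqrt (by norm_num)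
              rw [h5]
              have h8 : w * (δ * (Real.sqrt 2 * Real.sqrt (Real.log L)) / (2 * Real.pi)) =
                  (Real.sqrt 2 * Real.sqrt 2) / 2 * (δ * (Real.sqrt (Real.log L) / r)) := by
                rw [hw]
                field_simp
              rw [h8, h7]
              have h9 : Real.sqrt (Real.log L) / r ≤ 1 := by
                rw [div_le_one (by linarith)]
                exact h6
              have h10 : δ * (Real.sqrt (Real.log L) / r) ≤ δ * 1 :=
                mul_le_mul_of_nonneg_left h9 hδ.le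
              linarith
            have h4 : |w * ((ord (NZ t + 1 + x i.succ) - t) * ℓ - (x i.succ + 1) + Dd T t (x i.succ))| ≤
                10 * ε₀ := by
              rw [abs_mul, abs_of_pos hw0]
              refine (mul_le_mul_of_nonneg_left h1 hw0.le).trans ?_
              have h5 : w * (2 * (ε₀ * r)) = 2 * Real.sqrt 2 * Real.pi * ε₀ := by
                rw [hw]
                field_simp
              rw [h5]
              have h6 : Real.sqrt 2 ≤ 3 / 2 := by
                rw [Real.sqrt_le_left (by norm_num)]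
                norm_num
              have h7 : 2 * Real.sqrt 2 * Real.pi ≤ 10 := by nlinarith
              exact mul_le_mul_of_nonneg_right h7 hε₀0.le
            have h5 : |w * (W (ord (NZ t + 1 + x i.succ)) - W t - ℓ * (ord (NZ t + 1 + x i.succ) - t))| ≤
                w := by
              rw [abs_mul, abs_of_pos hw0]
              calc _ ≤ w * 1 := mul_le_mul_of_nonneg_left h8 hw0.le
                _ = w := mul_one w
            rw [abs_le] at h3 h4 h5 ⊢
            constructor <;> linarith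
          rw [abs_le] at hkey
          refine ⟨fun m hm => ?_, fun m hm => ?_⟩
          · have h1 : nv v' i ≤ θ m := of_decide_eq_true hm
            linarith [hkey.2]
          · have h1 : ¬ nv v' i ≤ θ m := of_decide_eq_false hm
            linarith [hkey.1, not_le.1 h1]
        exact_mod_cast Set.ncard_le_ncard hsub (Set.toFinite _)
    · left
      exact ⟨ht, hG⟩
  · rw [← ENNReal.ofReal_add (by positivity) (by positivity)]
    apply ENNReal.ofReal_le_ofReal
    linarith

end Pool.Agent.P8H60.BW
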